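import Mathlib

/-! # Derivations of `k[X]`, words, orders and determinants -/

namespace Pool.Agent.E8helper63.FA

open Polynomial

section det

variable {A : Type*} [CommRing A]

/-- If `q i` divides the `i`-th column, then `∏ q i` divides the determinant. -/
lemma prod_dvd_det {N : ℕ} (M : Matrix (Fin N) (Fin N) A) (q : Fin N → A)
    (h : ∀ r i, q i ∣ M r i) : ∏ i, q i ∣ M.det := by
  choose B hB using h
  have h1 : M = Matrix.of fun r i => q i * B r i := by
    ext r i
    exact hB r i
  rw [h1]
  have := Matrix.det_mul_row q (Matrix.of B)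
  exact Dvd.intro _ this.symm

/-- Determinants with losses: if `p i ∣ l r * M r i` for all entries, then
`∏ p i ∣ (∏ l r) * det M`. -/
lemma prod_dvd_prod_mul_det {N : ℕ} (M : Matrix (Fin N) (Fin N) A) (q l : Fin N → A)
    (h : ∀ r i, q i ∣ l r * M r i) : ∏ i, q i ∣ (∏ r, l r) * M.det := by
  have h1 := prod_dvd_det (Matrix.of fun r i => l r * M r i) q h
  rwa [Matrix.det_mul_column] at h1

end det

variable {k : Type*} [Field k]

/-- The determinant of a matrix of polynomials has degree at most the sum of bounds for the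
columns. -/
lemma natDegree_det_le {N : ℕ} (M : Matrix (Fin N) (Fin N) k[X]) (d : Fin N → ℕ)
    (h : ∀ r i, (M r i).natDegree ≤ d i) : M.det.natDegree ≤ ∑ i, d i := by
  rw [Matrix.det_apply]
  refine Polynomial.natDegree_sum_le_of_forall_le _ _ fun σ _ => ?_
  refine (Polynomial.natDegree_smul_le _ _).trans ?_
  refine (Polynomial.natDegree_prod_le _ _).trans ?_
  exact Finset.sum_le_sum fun i _ => h _ _

/-- The derivation of `k[X]` which applies `D` to the coefficients. -/
noncomputable def hor (D : Derivation ℤ k k) : Derivation ℤ k[X] k[X] :=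
  letI : Differential k := ⟨D⟩
  Differential.mapCoeffs

@[simp] lemma coeff_hor (D : Derivation ℤ k k) (p : k[X]) (i : ℕ) :
    (hor D p).coeff i = D (p.coeff i) := rfl

@[simp] lemma hor_X (D : Derivation ℤ k k) : hor D (X : k[X]) = 0 := by
  ext i
  rw [coeff_hor, coeff_X]
  split_ifs <;> simp

@[simp] lemma hor_C (D : Derivation ℤ k k) (z : k) : hor D (C z) = C (D z) := by
  ext i
  rw [coeff_hor, coeff_C, coeff_C]
  split_ifs <;> simp

/-- The derivative, as a derivation over `ℤ`. -/
noncomputable def ver : Derivation ℤ k[X] k[X] :=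
  (derivative' : Derivation k k[X] k[X]).restrictScalars ℤ

@[simp] lemma ver_apply (p : k[X]) : ver p = derivative p := rfl

/-- Derivations which do not raise the degree. -/
def Good (δ : Derivation ℤ k[X] k[X]) : Prop := ∀ p, (δ p).natDegree ≤ p.natDegree

lemma good_ver : Good (ver : Derivation ℤ k[X] k[X]) := fun p =>
  (Polynomial.natDegree_derivative_le p).trans (Nat.sub_le _ _)

lemma good_hor (D : Derivation ℤ k k) : Good (hor D) := by
  intro p
  rw [Polynomial.natDegree_le_iff_coeff_eq_zero]
  intro i hi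
  rw [coeff_hor, Polynomial.coeff_eq_zero_of_natDegree_lt hi, map_zero]

/-- Apply a word of derivations. -/
noncomputable def app (L : List (Derivation ℤ k[X] k[X])) (p : k[X]) : k[X] :=
  L.foldr (fun δ q => δ q) p

@[simp] lemma app_nil (p : k[X]) : app [] p = p := rfl

@[simp] lemma app_cons (δ : Derivation ℤ k[X] k[X]) (L : List (Derivation ℤ k[X] k[X]))
    (p : k[X]) : app (δ :: L) p = δ (app L p) := rfl

lemma app_zero (L : List (Derivation ℤ k[X] k[X])) : app L 0 = 0 := by
  induction L with
  | nil => rfl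
  | cons δ L ih => rw [app_cons, ih, map_zero]

lemma app_add (L : List (Derivation ℤ k[X] k[X])) (p q : k[X]) :
    app L (p + q) = app L p + app L q := by
  induction L with
  | nil => rfl
  | cons δ L ih => rw [app_cons, ih, map_add]; rfl

lemma app_sum {ι : Type*} (s : Finset ι) (L : List (Derivation ℤ k[X] k[X])) (f : ι → k[X]) :
    app L (∑ i ∈ s, f i) = ∑ i ∈ s, app L (f i) := by
  classical
  induction s using Finset.induction_on with
  | empty => simp [app_zero]
  | insert i s hi ih => rw [Finset.sum_insert hi, Finset.sum_insert hi, app_add, ih]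

lemma natDegree_app_le (L : List (Derivation ℤ k[X] k[X])) (hL : ∀ δ ∈ L, Good δ) (p : k[X]) :
    (app L p).natDegree ≤ p.natDegree := by
  induction L with
  | nil => exact le_rfl
  | cons δ L ih =>
    rw [app_cons]
    exact (hL δ (by simp) _).trans (ih fun δ' h => hL δ' (by simp [h]))

/-- A derivation lowers orders by at most one. -/
lemma pow_dvd_der {π p : k[X]} {m : ℕ} (δ : Derivation ℤ k[X] k[X]) (h : π ^ (m + 1) ∣ p) :
    π ^ m ∣ δ p := by
  obtain ⟨u, rfl⟩ := h
  rw [Derivation.leibniz, Derivation.leibniz_pow]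
  simp only [smul_eq_mul, Nat.add_sub_cancel, nsmul_eq_mul]
  refine dvd_add (Dvd.intro (π * δ u) (by ring)) ?_
  exact Dvd.intro (u * (((m + 1 : ℕ) : k[X]) * δ π)) (by ring)

lemma pow_dvd_app {π p : k[X]} {m : ℕ} (L : List (Derivation ℤ k[X] k[X])) (h : π ^ m ∣ p) :
    π ^ (m - L.length) ∣ app L p := by
  induction L with
  | nil => simpa using h
  | cons δ L ih =>
    rw [app_cons, List.length_cons]
    rcases Nat.eq_zero_or_pos (m - L.length) with h0 | h0
    · have : m - (L.length + 1) = 0 := by omega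
      rw [this, pow_zero]
      exact one_dvd _
    · have : m - L.length = (m - (L.length + 1)) + 1 := by omega
      rw [this] at ih
      exact pow_dvd_der δ ih

lemma pow_dvd_pow_mul_app {π p : k[X]} {m : ℕ} (L : List (Derivation ℤ k[X] k[X]))
    (h : π ^ m ∣ p) {l : ℕ} (hl : L.length ≤ l) : π ^ m ∣ π ^ l * app L p := by
  obtain ⟨u, hu⟩ := pow_dvd_app L h
  rw [hu, ← mul_assoc, ← pow_add]
  exact Dvd.dvd.mul_right (pow_dvd_pow _ (by omega)) _

/-- A derivation preserving `(π)` preserves all powers. -/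
lemma pow_dvd_der_of_dvd {π p : k[X]} {m : ℕ} (δ : Derivation ℤ k[X] k[X]) (hδ : π ∣ δ π)
    (h : π ^ m ∣ p) : π ^ m ∣ δ p := by
  obtain ⟨u, rfl⟩ := h
  obtain ⟨w, hw⟩ := hδ
  rcases Nat.eq_zero_or_pos m with h0 | h0
  · rw [h0, pow_zero]
    exact one_dvd _
  · obtain ⟨m', rfl⟩ : ∃ m', m = m' + 1 := ⟨m - 1, by omega⟩
    rw [Derivation.leibniz, Derivation.leibniz_pow]
    simp only [smul_eq_mul, Nat.add_sub_cancel, nsmul_eq_mul, hw]
    refine dvd_add (Dvd.intro _ rfl) ?_
    exact Dvd.intro (u * (((m' + 1 : ℕ) : k[X]) * w)) (by ring)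

/-- Modifying a derivation by a multiple of the derivative so that it preserves `(π)`. -/
lemma exists_sub_smul_dvd [CharZero k] {π : k[X]} (hπ : Irreducible π)
    (D : Derivation ℤ k[X] k[X]) : ∃ c : k[X], π ∣ (D - c • ver : Derivation ℤ k[X] k[X]) π := by
  obtain ⟨u, v, huv⟩ := hπ.separable
  refine ⟨D π * v, ?_⟩
  have h1 : (D - (D π * v) • ver : Derivation ℤ k[X] k[X]) π = D π - D π * v * derivative π := rfl
  rw [h1]
  refine Dvd.intro (D π * u) ?_
  linear_combination (-D π) * (- huv)

end Pool.Agent.E8helper63.FA
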