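import Pool.Agent.E8helper63.FA.Ultra

/-! # The uniform statement for bounded height, and sharpness -/

namespace Pool.Agent.E8helper63.FA

open Polynomial UniqueFactorizationMonoid

universe u

/-- Bad classes. -/
def Bad (M : ℕ) (F : MvPolynomial (Fin (M + 1)) ℚ) (c : (Fin (M + 2 + 1) → ℕ) × ℕ) : Prop :=
  ∃ (k : Type u) (_ : Field k) (_ : CharZero k) (a : Fin (M + 2 + 1) → k[X]), Pt a ∧
    (∀ i, (a i).natDegree = c.1 i) ∧ fr a = c.2 ∧ MvPolynomial.aeval (rat a) F ≠ 0 ∧
    fr a + inf a < ht a + 2

lemma fr_le {k : Type*} [Field k] {n H : ℕ} {a : Fin n → k[X]} (ha : Pt a) (h : ht a ≤ H) :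
    fr a ≤ n * H := by
  classical
  have hP : ∏ i, a i ≠ 0 := Finset.prod_ne_zero_iff.2 fun i _ => ha.ne i
  have h1 : fr a ≤ (∏ i, a i).natDegree := natDegree_le_of_dvd radical_dvd_self hP
  refine h1.trans ?_
  rw [natDegree_prod _ _ fun i _ => ha.ne i]
  calc ∑ i, (a i).natDegree ≤ ∑ _i : Fin n, H :=
        Finset.sum_le_sum fun i _ => (Finset.le_sup (f := fun i => (a i).natDegree)
          (Finset.mem_univ i)).trans h
    _ = n * H := by simp

theorem bounded (M H : ℕ) : ∃ F : MvPolynomial (Fin (M + 1)) ℚ, F ≠ 0 ∧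
    ∀ (k : Type u) [Field k] [CharZero k] (a : Fin (M + 2 + 1) → k[X]), Pt a → ht a ≤ H →
      MvPolynomial.aeval (rat a) F ≠ 0 → ht a + 2 ≤ fr a + inf a := by
  classical
  by_contra hcon
  push Not at hcon
  let Cs : Finset ((Fin (M + 2 + 1) → ℕ) × ℕ) :=
    (Fintype.piFinset fun _ => Finset.range (H + 1)) ×ˢ Finset.range ((M + 2 + 1) * H + 1)
  -- a class that is bad for all polynomials
  obtain ⟨c, hc⟩ : ∃ c, ∀ F : Ix M, Bad.{u} M F.1 c := by
    by_contra hno
    push Not at hno
    choose f hf using hno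
    obtain ⟨k, fld, cz, a, ha, hH, hne, hlt⟩ := hcon (∏ c ∈ Cs, (f c).1)
      (Finset.prod_ne_zero_iff.2 fun c _ => (f c).2)
    let c : (Fin (M + 2 + 1) → ℕ) × ℕ := (fun i => (a i).natDegree, fr a)
    have hc : c ∈ Cs := by
      rw [Finset.mem_product, Fintype.mem_piFinset, Finset.mem_range]
      refine ⟨fun i => ?_, Nat.lt_succ_of_le (fr_le ha hH)⟩
      rw [Finset.mem_range]
      exact Nat.lt_succ_of_le ((Finset.le_sup (f := fun i => (a i).natDegree)
          (Finset.mem_univ i)).trans hH)
    apply hf c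
    refine ⟨k, fld, cz, a, ha, fun i => rfl, rfl, ?_, hlt⟩
    rw [map_prod] at hne
    exact Finset.prod_ne_zero_iff.1 hne c hc
  choose k fld cz a ha hd hr hne hlt using hc
  obtain ⟨κ, fldκ, czκ, b, hb, hbd, hbr, halg⟩ := transfer (k := k) ha hd hr hne
  have h1 := hb.ineq (τ := M + 1) (by omega) (by omega) (Fin.last (M + 2))
    (fun j => j.castSucc.castSucc) halg (fun h => absurd h (by omega))
  have h2 : M + 2 + 1 - (M + 1) = 2 := by omega
  rw [h2, Nat.choose_self, one_mul] at h1
  have h3 := hlt ⟨1, one_ne_zero⟩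
  have h4 : ht (a ⟨1, one_ne_zero⟩) = ht b := ht_eq_of_natDegree fun i => by rw [hd, hbd]
  have h5 : inf (a ⟨1, one_ne_zero⟩) = inf b := inf_eq_of_natDegree fun i => by rw [hd, hbd]
  rw [h4, h5, hr] at h3
  omega

/-- Fields with independent elements. -/
lemma exists_indep (m : ℕ) : ∃ (k : Type) (_ : Field k) (_ : CharZero k) (μ : Fin m → k),
    AlgebraicIndependent ℚ μ := by
  let R := MvPolynomial (Fin m) ℚ
  let k := FractionRing R
  have hinj : Function.Injective (algebraMap R k) := IsFractionRing.injective R k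
  have hcz : CharZero k := charZero_of_injective_algebraMap hinj
  refine ⟨k, inferInstance, hcz, fun j => algebraMap R k (MvPolynomial.X j), ?_⟩
  rw [algebraicIndependent_iff]
  intro G hG
  have h1 : MvPolynomial.aeval (fun j => algebraMap R k (MvPolynomial.X j)) G = algebraMap R k G := by
    have h2 : (MvPolynomial.aeval (fun j => algebraMap R k (MvPolynomial.X j)) :
        MvPolynomial (Fin m) ℚ →ₐ[ℚ] k).toRingHom = algebraMap R k := by
      apply MvPolynomial.ringHom_ext
      · intro q
        have h3 := Subsingleton.elim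
          (((MvPolynomial.aeval (fun j => algebraMap R k (MvPolynomial.X j)) :
            MvPolynomial (Fin m) ℚ →ₐ[ℚ] k).toRingHom).comp MvPolynomial.C)
          ((algebraMap R k).comp MvPolynomial.C)
        exact congrArg (fun f => f q) h3
      · intro j
        simp
    exact congrArg (fun f => f G) h2
  rw [h1, map_eq_zero_iff _ hinj] at hG
  exact hG

/-- Sharpness. -/
theorem sharp (m h : ℕ) (hm : 1 ≤ m) (hh : 1 ≤ h) :
    ∃ (k : Type) (_ : Field k) (_ : CharZero k) (a : Fin (m + 2) → k[X]) (i0 : Fin (m + 2))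
      (e : Fin m → Fin (m + 2)), Pt a ∧ ht a = h ∧ ht a + 2 = fr a + inf a ∧
      AlgebraicIndependent ℚ (fun j => algebraMap k[X] (RatFunc k) (a (e j)) /
        algebraMap k[X] (RatFunc k) (a i0)) := by
  classical
  obtain ⟨k, fld, cz, μ, hμ⟩ := exists_indep m
  have hμ0 : ∀ j, μ j ≠ 0 := fun j => by
    have := hμ.transcendental j
    intro h0
    rw [h0] at this
    exact this (isAlgebraic_zero)
  let s : k := ∑ j, μ j
  have hs : s ≠ 0 := by
    intro h0
    have h1 := (algebraicIndependent_iff.1 hμ) (∑ j, MvPolynomial.X j) (by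
      rw [map_sum]
      simpa using h0)
    have h2 := congrArg (MvPolynomial.coeff (Finsupp.single ⟨0, hm⟩ 1)) h1
    rw [MvPolynomial.coeff_sum] at h2
    simp only [MvPolynomial.coeff_X, MvPolynomial.coeff_zero] at h2
    simp [Finsupp.single_left_inj] at h2
  let a : Fin (m + 2) → k[X] := Fin.snoc (Fin.snoc (fun j : Fin m => C (μ j) * X ^ h) 1 :
    Fin (m + 1) → k[X]) (-(1 + C s * X ^ h))
  have ha1 : ∀ j : Fin m, a j.castSucc.castSucc = C (μ j) * X ^ h := fun j => by
    simp [a]
  have ha2 : a (Fin.last m).castSucc = 1 := by simp [a]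
  have ha3 : a (Fin.last (m + 1)) = -(1 + C s * X ^ h) := by simp [a]
  have hind : ∀ {P : Fin (m + 2) → Prop}, (∀ j : Fin m, P j.castSucc.castSucc) →
      P (Fin.last m).castSucc → P (Fin.last (m + 1)) → ∀ i, P i := by
    intro P h1 h2 h3 i
    refine Fin.lastCases h3 (fun i => ?_) i
    exact Fin.lastCases h2 (fun j => h1 j) i
  have hd1 : ∀ j : Fin m, (a j.castSucc.castSucc).natDegree = h := fun j => by
    rw [ha1, natDegree_C_mul_X_pow _ _ (hμ0 j)]
  have hd2 : (a (Fin.last m).castSucc).natDegree = 0 := by rw [ha2, natDegree_one]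
  have hd3 : (a (Fin.last (m + 1))).natDegree = h := by
    rw [ha3, natDegree_neg]
    have h1 : (1 + C s * X ^ h : k[X]) = C s * X ^ h + C 1 := by rw [C_1]; ring
    rw [h1, natDegree_add_C, natDegree_C_mul_X_pow _ _ hs]
  have hht : ht a = h := by
    apply le_antisymm
    · apply Finset.sup_le
      intro i _
      revert i
      suffices H : ∀ i, (a i).natDegree ≤ h from fun i _ => H i
      exact hind (fun j => (hd1 j).le) (by rw [hd2]; omega) hd3.le
    · rw [← hd3]
      exact Finset.le_sup (f := fun i => (a i).natDegree) (Finset.mem_univ _)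
  have hpt : Pt a := by
    refine ⟨?_, ?_, ?_, ?_⟩
    · refine hind (fun j => ?_) ?_ ?_
      · rw [ha1]
        exact mul_ne_zero (C_ne_zero.2 (hμ0 j)) (pow_ne_zero _ X_ne_zero)
      · rw [ha2]
        exact one_ne_zero
      · intro h0
        rw [h0, natDegree_zero] at hd3
        omega
    · rw [Fin.sum_univ_castSucc, Fin.sum_univ_castSucc, ha2, ha3]
      simp only [ha1]
      rw [← Finset.sum_mul, ← map_sum]
      ring
    · intro d hd
      have := hd (Fin.last m).castSucc
      rw [ha2] at this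
      exact isUnit_of_dvd_one this
    · exact ⟨Fin.last (m + 1), by rw [hd3]; omega⟩
  have halg : AlgebraicIndependent ℚ (fun j : Fin m =>
      algebraMap k[X] (RatFunc k) (a j.castSucc.castSucc) /
        algebraMap k[X] (RatFunc k) (a (Fin.last m).castSucc)) := by
    rw [algebraicIndependent_iff]
    intro G hG
    apply (algebraicIndependent_iff.1 hμ) G
    have h1 : MvPolynomial.aeval (fun j => C (μ j) * X ^ h) G = (0 : k[X]) := by
      apply IsFractionRing.injective k[X] (RatFunc k)
      rw [map_zero, ← hG]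
      have h2 : (fun j : Fin m => algebraMap k[X] (RatFunc k) (a j.castSucc.castSucc) /
        algebraMap k[X] (RatFunc k) (a (Fin.last m).castSucc)) =
          fun j => algebraMap k[X] (RatFunc k) (C (μ j) * X ^ h) := by
        ext j
        rw [ha1, ha2, map_one, div_one]
      rw [h2]
      have h3 := MvPolynomial.map_aeval (fun j => (C (μ j) * X ^ h : k[X]))
        (algebraMap k[X] (RatFunc k)) G
      rw [h3]
      rw [MvPolynomial.aeval_def, MvPolynomial.coe_eval₂Hom]
      congr 1
      exact Subsingleton.elim _ _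
    have h2 := congrArg (Polynomial.evalRingHom (1 : k)) h1
    rw [map_zero] at h2
    rw [← h2, MvPolynomial.map_aeval, MvPolynomial.aeval_def, MvPolynomial.coe_eval₂Hom]
    simp only [coe_evalRingHom, eval_mul, eval_C, eval_pow, eval_X, one_pow, mul_one]
    congr 1
    exact Subsingleton.elim _ _
  have hinf : inf a = 1 := by
    unfold inf
    rw [if_neg]
    intro hall
    have := hall (Fin.last m).castSucc
    rw [hd2, hht] at this
    omega
  have hge : ht a + 2 ≤ fr a + inf a := by
    have h1 := hpt.ineq (τ := m) hm le_rfl (Fin.last m).castSucc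
      (fun j => j.castSucc.castSucc) halg (fun h => absurd h (by omega))
    have h2 : m + 2 - m = 2 := by omega
    rwa [h2, Nat.choose_self, one_mul] at h1
  have hle : fr a ≤ h + 1 := by
    let w : k[X] := X * (1 + C s * X ^ h)
    have hw1 : (1 + C s * X ^ h : k[X]) ≠ 0 := by
      intro h0
      apply hpt.ne (Fin.last (m + 1))
      rw [ha3, h0, neg_zero]
    have hw0 : w ≠ 0 := mul_ne_zero X_ne_zero hw1
    have hwd : w.natDegree = h + 1 := by
      have h1 : (1 + C s * X ^ h : k[X]).natDegree = h := by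
        have h2 := hd3
        rwa [ha3, natDegree_neg] at h2
      rw [natDegree_mul X_ne_zero hw1, natDegree_X, h1]
      omega
    have h1 : ∀ i, a i ∣ w ^ h := by
      refine hind (fun j => ?_) ?_ ?_
      · rw [ha1, mul_pow]
        refine Dvd.dvd.mul_right ?_ _
        exact (IsUnit.mul_left_dvd (isUnit_C.2 (isUnit_iff_ne_zero.2 (hμ0 j)))).2 dvd_rfl
      · rw [ha2]
        exact one_dvd _
      · rw [ha3, neg_dvd]
        exact (Dvd.intro_left _ rfl).trans (dvd_pow_self w (by omega))
    have h2 : ∏ i, a i ∣ (w ^ h) ^ (m + 2) := by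
      have h3 := Finset.prod_dvd_prod_of_dvd (s := Finset.univ) a (fun _ => w ^ h) fun i _ => h1 i
      simpa using h3
    have h3 : fr a ≤ w.natDegree := by
      apply natDegree_le_of_dvd _ hw0
      refine (radical_dvd_radical h2 (pow_ne_zero _ (pow_ne_zero _ hw0))).trans ?_
      exact radical_pow_dvd.trans (radical_pow_dvd.trans radical_dvd_self)
    omega
  refine ⟨k, fld, cz, a, (Fin.last m).castSucc, fun j => j.castSucc.castSucc, hpt, hht, ?_, halg⟩
  omega

end Pool.Agent.E8helper63.FA
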