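import Pool.Agent.E8helper63.FA.Diff

/-! # Constants -/

namespace Pool.Agent.E8helper63.FA

open Polynomial

variable {k : Type*} [Field k] [CharZero k] {K : Type*} [Field K] [Algebra k[X] K]
  [IsFractionRing k[X] K]

/-- The constants of the derivative are the elements of `k`. -/
lemma const_of_ver {x : K} (h : ext K (ver (k := k)) x = 0) :
    ∃ z : k, x = algebraMap k[X] K (C z) := by
  obtain ⟨a, b, hab, rfl⟩ := IsFractionRing.exists_reduced_fraction (A := k[X]) x
  have hb : (b : k[X]) ≠ 0 := nonZeroDivisors.coe_ne_zero b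
  have hbK : algebraMap k[X] K b ≠ 0 := IsFractionRing.to_map_ne_zero_of_mem_nonZeroDivisors b.2
  rw [IsFractionRing.mk'_eq_div] at h ⊢
  rw [Derivation.leibniz_div, ext_algebraMap, ext_algebraMap, smul_eq_mul, smul_eq_mul,
    smul_eq_mul] at h
  have h1 : algebraMap k[X] K b * algebraMap k[X] K (ver a) -
      algebraMap k[X] K a * algebraMap k[X] K (ver (b : k[X])) = 0 :=
    (mul_eq_zero.1 h).resolve_left (pow_ne_zero 2 (inv_ne_zero hbK))
  rw [← map_mul, ← map_mul, ← map_sub, map_eq_zero_iff _ (IsFractionRing.injective k[X] K),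
    sub_eq_zero, ver_apply, ver_apply] at h1
  have h2 : (b : k[X]) ∣ derivative (b : k[X]) :=
    hab.symm.dvd_of_dvd_mul_left (Dvd.intro _ h1)
  have h3 : derivative (b : k[X]) = 0 := by
    by_contra hne
    have h4 := natDegree_le_of_dvd h2 hne
    have h5 : (b : k[X]).natDegree ≠ 0 := by
      intro h6
      rw [natDegree_eq_zero] at h6
      obtain ⟨u, hu⟩ := h6
      rw [← hu, derivative_C] at hne
      exact hne rfl
    have := natDegree_derivative_lt h5
    omega
  have h4 : derivative a = 0 := by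
    rw [h3, mul_zero] at h1
    exact (mul_eq_zero.1 h1).resolve_left hb
  obtain ⟨u, hu⟩ := natDegree_eq_zero.1 (derivative_eq_zero.1 h3)
  obtain ⟨v, hv⟩ := natDegree_eq_zero.1 (derivative_eq_zero.1 h4)
  refine ⟨v / u, ?_⟩
  have hu0 : u ≠ 0 := by
    intro h0
    rw [h0, C_0] at hu
    exact hb hu.symm
  rw [div_eq_iff hbK, ← hu, ← hv, ← map_mul, ← C_mul, div_mul_cancel₀ _ hu0]

/-- The elements killed by all basic derivations are algebraic constants. -/
lemma const_of_all {x : K} (h : ext K (ver (k := k)) x = 0)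
    (h' : ∀ D : Derivation ℤ k k, ext K (hor D) x = 0) :
    ∃ z : k, x = algebraMap k[X] K (C z) ∧ IsAlgebraic ℚ z := by
  obtain ⟨z, rfl⟩ := const_of_ver h
  refine ⟨z, rfl, ?_⟩
  by_contra hz
  have h1 : AlgebraicIndependent ℚ (fun _ : Unit => z) :=
    algebraicIndependent_unique_type_iff.2 hz
  obtain ⟨D, hD⟩ := Pool.Agent.H135R2.VS.exists_der h1 (fun _ => 1)
  have h2 := h' (D.restrictScalars ℤ)
  rw [ext_algebraMap, map_eq_zero_iff _ (IsFractionRing.injective k[X] K), hor_C, C_eq_zero] at h2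
  have h3 : D z = 0 := h2
  rw [hD ()] at h3
  exact one_ne_zero h3

end Pool.Agent.E8helper63.FA
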