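import Pool.Agent.E8helper63.FA.Basic
import Pool.Agent.H135R2.VS.Der

/-! # Derivations of `k(X)` -/

namespace Pool.Agent.E8helper63.FA

open Polynomial

theorem exists_derivation_extension {A K : Type*} [CommRing A] [IsDomain A]
    [Field K] [Algebra A K] [IsFractionRing A K] (d : Derivation ℤ A K) :
    ∃ D : Derivation ℤ K K, ∀ a, D (algebraMap A K a) = d a := by
  let l : Ω[A⁄ℤ] →ₗ[A] K := d.liftKaehlerDifferential
  have h : ∀ x : nonZeroDivisors A, IsUnit (algebraMap A (Module.End A K) x) := by
    intro x
    rw [Module.End.isUnit_iff]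
    have hx : algebraMap A K x ≠ 0 :=
      IsFractionRing.to_map_ne_zero_of_mem_nonZeroDivisors x.2
    constructor
    · intro a b hab
      simp only [Module.algebraMap_end_apply, Algebra.smul_def] at hab
      exact mul_left_cancel₀ hx hab
    · intro a
      refine ⟨(algebraMap A K x)⁻¹ * a, ?_⟩
      simp only [Module.algebraMap_end_apply, Algebra.smul_def]
      field_simp
  let l' : Ω[K⁄ℤ] →ₗ[A] K :=
    IsLocalizedModule.lift (nonZeroDivisors A) (KaehlerDifferential.map ℤ ℤ A K) l h
  let l'' : Ω[K⁄ℤ] →ₗ[K] K := LinearMap.extendScalarsOfIsLocalization (nonZeroDivisors A) K l'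
  refine ⟨l''.compDer (KaehlerDifferential.D ℤ K), fun a => ?_⟩
  have h1 : KaehlerDifferential.D ℤ K (algebraMap A K a) =
      KaehlerDifferential.map ℤ ℤ A K (KaehlerDifferential.D ℤ A a) := by
    simp
  change l' (KaehlerDifferential.D ℤ K (algebraMap A K a)) = d a
  rw [h1]
  have := IsLocalizedModule.lift_apply (nonZeroDivisors A) (KaehlerDifferential.map ℤ ℤ A K) l h
    (KaehlerDifferential.D ℤ A a)
  rw [this]
  simp [l]

/-- The elements killed by a derivation form a subfield. -/
lemma der_div_eq_zero {K : Type*} [Field K] (D : Derivation ℤ K K) {x y : K}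
    (hx : D x = 0) (hy : D y = 0) : D (x / y) = 0 := by
  rw [Derivation.leibniz_div, hx, hy]
  simp

variable {k : Type*} [Field k] (K : Type*) [Field K] [Algebra k[X] K] [IsFractionRing k[X] K]

/-- The extension of a derivation of `k[X]` to `k(X)`. -/
theorem exists_ext (δ : Derivation ℤ k[X] k[X]) :
    ∃ D : Derivation ℤ K K, ∀ a, D (algebraMap k[X] K a) = algebraMap k[X] K (δ a) := by
  let d : Derivation ℤ k[X] K := (Algebra.linearMap k[X] K).compDer δ
  exact exists_derivation_extension d

/-- The extension of a derivation of `k[X]` to `k(X)`. -/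
noncomputable def ext (δ : Derivation ℤ k[X] k[X]) : Derivation ℤ K K :=
  (exists_ext K δ).choose

@[simp] lemma ext_algebraMap (δ : Derivation ℤ k[X] k[X]) (a : k[X]) :
    ext K δ (algebraMap k[X] K a) = algebraMap k[X] K (δ a) :=
  (exists_ext K δ).choose_spec a

variable {K}

omit [IsFractionRing k[X] K] in
/-- Two derivations which agree on the constants and on `X` are equal at every polynomial. -/
lemma der_poly_eq_zero (E : Derivation ℤ K K) (p : k[X])
    (hC : ∀ i, E (algebraMap k[X] K (C (p.coeff i))) = 0) (hX : E (algebraMap k[X] K X) = 0) :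
    E (algebraMap k[X] K p) = 0 := by
  conv_lhs => rw [p.as_sum_range_C_mul_X_pow]
  rw [map_sum, map_sum]
  refine Finset.sum_eq_zero fun i _ => ?_
  rw [map_mul, map_pow, Derivation.leibniz, Derivation.leibniz_pow, hC, hX]
  simp

/-- The structure of the derivations of `k(X)`: locally, every derivation is a combination of the
vertical and of horizontal ones. -/
theorem key_formula (η : Derivation ℤ K K) {ι : Type*} [Fintype ι] (y c : ι → K)
    (hver : ∑ j, c j * ext K (ver (k := k)) (y j) = 0)
    (hhor : ∀ D : Derivation ℤ k k, ∑ j, c j * ext K (hor D) (y j) = 0) :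
    ∑ j, c j * η (y j) = 0 := by
  classical
  let : Algebra k K := ((algebraMap k[X] K).comp C).toAlgebra
  have halg : ∀ z : k, algebraMap k K z = algebraMap k[X] K (C z) := fun z => rfl
  have : IsScalarTower k k[X] K := IsScalarTower.of_algebraMap_eq halg
  let b := Module.Basis.ofVectorSpace k K
  -- the coordinates of `η` on `k`
  let ηk : Derivation ℤ k K := Derivation.mk'
    ((η.toLinearMap).comp ((algebraMap k K).toAddMonoidHom.toIntLinearMap)) (by
      intro x y
      change η (algebraMap k K (x * y)) = _
      rw [map_mul, Derivation.leibniz]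
      rw [Algebra.smul_def, Algebra.smul_def]
      rfl)
  have hηk : ∀ z, ηk z = η (algebraMap k K z) := fun z => rfl
  let ηc : Module.Basis.ofVectorSpaceIndex k K → Derivation ℤ k k := fun α =>
    (b.coord α).compDer ηk
  have hηc : ∀ α z, ηc α z = b.repr (η (algebraMap k K z)) α := fun α z => rfl
  let E : Finset (Module.Basis.ofVectorSpaceIndex k K) → Derivation ℤ K K := fun S =>
    η - (η (algebraMap k[X] K X)) • ext K (ver (k := k)) - ∑ α ∈ S, b α • ext K (hor (ηc α))
  have hE : ∀ S x, E S x = η x - η (algebraMap k[X] K X) * ext K (ver (k := k)) x -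
      ∑ α ∈ S, b α * ext K (hor (ηc α)) x := by
    intro S x
    simp only [E]
    rw [Derivation.sub_apply, Derivation.sub_apply, Derivation.smul_apply]
    congr 1
    induction S using Finset.induction_on with
    | empty => simp
    | insert α S hα ih =>
      rw [Finset.sum_insert hα, Finset.sum_insert hα, Derivation.add_apply, ih,
        Derivation.smul_apply]
      rfl
  have hEX : ∀ S, E S (algebraMap k[X] K X) = 0 := by
    intro S
    rw [hE]
    simp
  -- polynomials
  have hEp : ∀ p : k[X], ∃ S0, ∀ S, S0 ⊆ S → E S (algebraMap k[X] K p) = 0 := by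
    intro p
    refine ⟨p.support.biUnion fun i => (b.repr (η (algebraMap k K (p.coeff i)))).support,
      fun S hS => ?_⟩
    refine der_poly_eq_zero _ p (fun i => ?_) (hEX S)
    rw [hE, ext_algebraMap, ver_apply, derivative_C, map_zero, mul_zero, sub_zero]
    by_cases hi : p.coeff i = 0
    · rw [hi]
      simp
    have h1 : ∀ α ∈ S, b α * ext K (hor (ηc α)) (algebraMap k[X] K (C (p.coeff i))) =
        b.repr (η (algebraMap k K (p.coeff i))) α • b α := by
      intro α _
      rw [ext_algebraMap, hor_C, hηc, Algebra.smul_def, mul_comm]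
      rfl
    rw [Finset.sum_congr rfl h1, ← halg, sub_eq_zero]
    have h2 := b.linearCombination_repr (η (algebraMap k K (p.coeff i)))
    conv_lhs => rw [← h2]
    rw [Finsupp.linearCombination_apply, Finsupp.sum]
    apply Finset.sum_subset
    · refine Finset.Subset.trans ?_ hS
      exact Finset.subset_biUnion_of_mem (fun i => (b.repr (η (algebraMap k K (p.coeff i)))).support)
        (mem_support_iff.2 hi)
    · intro α _ hα
      rw [Finsupp.notMem_support_iff.1 hα, zero_smul]
  have hEx : ∀ x : K, ∃ S0, ∀ S, S0 ⊆ S → E S x = 0 := by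
    intro x
    obtain ⟨p, q, _, rfl⟩ := IsFractionRing.div_surjective (A := k[X]) x
    obtain ⟨S1, h1⟩ := hEp p
    obtain ⟨S2, h2⟩ := hEp q
    refine ⟨S1 ∪ S2, fun S hS => ?_⟩
    exact der_div_eq_zero _ (h1 S (Finset.union_subset_left hS))
      (h2 S (Finset.union_subset_right hS))
  choose S0 hS0 using hEx
  let S := Finset.univ.biUnion fun j => S0 (y j)
  have h1 : ∀ j, E S (y j) = 0 := fun j =>
    hS0 (y j) S (Finset.subset_biUnion_of_mem (fun j => S0 (y j)) (Finset.mem_univ j))
  have h2 : ∀ j, η (y j) = η (algebraMap k[X] K X) * ext K (ver (k := k)) (y j) +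
      ∑ α ∈ S, b α * ext K (hor (ηc α)) (y j) := by
    intro j
    have h3 := h1 j
    rw [hE] at h3
    linear_combination h3
  simp only [h2, mul_add, Finset.sum_add_distrib, Finset.mul_sum]
  rw [Finset.sum_comm]
  have h4 : ∑ j, c j * (η (algebraMap k[X] K X) * ext K (ver (k := k)) (y j)) = 0 := by
    have h5 : ∑ j, c j * (η (algebraMap k[X] K X) * ext K (ver (k := k)) (y j)) =
        η (algebraMap k[X] K X) * ∑ j, c j * ext K (ver (k := k)) (y j) := by
      rw [Finset.mul_sum]
      exact Finset.sum_congr rfl fun j _ => by ring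
    rw [h5, hver, mul_zero]
  rw [h4, zero_add]
  refine Finset.sum_eq_zero fun α _ => ?_
  have h5 : ∑ j, c j * (b α * ext K (hor (ηc α)) (y j)) =
      b α * ∑ j, c j * ext K (hor (ηc α)) (y j) := by
    rw [Finset.mul_sum]
    exact Finset.sum_congr rfl fun j _ => by ring
  rw [h5, hhor, mul_zero]

end Pool.Agent.E8helper63.FA
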