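import Pool.Agent.E8helper63.FA.Pts

/-! # Gluing polynomials over a product of fields -/

namespace Pool.Agent.E8helper63.FA

open Polynomial UniqueFactorizationMonoid

universe u

section uniform

variable {k : Type*} [Field k]

/-- Bezout with bounded degrees. -/
lemma exists_bezout_deg {n H : ℕ} {a : Fin (n + 1) → k[X]} (ha : ∀ i, a i ≠ 0)
    (hcop : ∀ d, (∀ i, d ∣ a i) → IsUnit d) (hH : ∀ i, (a i).natDegree ≤ H) :
    ∃ u : Fin (n + 1) → k[X], ∑ i, u i * a i = 1 ∧ ∀ i, (u i).natDegree ≤ 2 * H := by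
  obtain ⟨u, hu⟩ := exists_bezout hcop
  have h1 : ∀ i : Fin n, u i.succ = (u i.succ / a 0) * a 0 + u i.succ % a 0 := fun i => by
    rw [mul_comm]
    exact (EuclideanDomain.div_add_mod _ _).symm
  let w : k[X] := u 0 + ∑ i : Fin n, (u i.succ / a 0) * a i.succ
  have h2 : w * a 0 + ∑ i : Fin n, (u i.succ % a 0) * a i.succ = 1 := by
    rw [← hu, Fin.sum_univ_succ]
    simp only [w]
    rw [add_mul, Finset.sum_mul, add_assoc, ← Finset.sum_add_distrib]
    congr 1
    refine Finset.sum_congr rfl fun i _ => ?_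
    conv_rhs => rw [h1 i]
    ring
  have h3 : ∀ i : Fin n, (u i.succ % a 0).natDegree ≤ H := by
    intro i
    have h4 : (u i.succ % a 0).degree < (a 0).degree := EuclideanDomain.mod_lt _ (ha 0)
    exact (natDegree_le_natDegree h4.le).trans (hH 0)
  have h4 : w.natDegree ≤ 2 * H := by
    by_cases hw : w = 0
    · rw [hw]; simp
    have h5 : (w * a 0).natDegree ≤ 2 * H := by
      have h6 : w * a 0 = 1 - ∑ i : Fin n, (u i.succ % a 0) * a i.succ := by
        rw [← h2]; ring
      rw [h6]
      refine (natDegree_sub_le _ _).trans (max_le (by simp) ?_)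
      refine natDegree_sum_le_of_forall_le _ _ fun i _ => ?_
      refine natDegree_mul_le.trans ?_
      have := h3 i
      have := hH i.succ
      omega
    rw [natDegree_mul hw (ha 0)] at h5
    omega
  refine ⟨Fin.cons w fun i => u i.succ % a 0, ?_, ?_⟩
  · rw [Fin.sum_univ_succ]
    simpa using h2
  · intro i
    refine Fin.cases ?_ (fun i => ?_) i
    · simpa using h4
    · have := h3 i
      simp only [Fin.cons_succ]
      omega

open scoped Classical in
/-- A polynomial divides a power of its radical. -/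
lemma dvd_radical_pow {p : k[X]} (hp : p ≠ 0) {N : ℕ} (hN : p.natDegree ≤ N) :
    p ∣ radical p ^ N := by
  rw [dvd_iff_emultiplicity_le hp]
  intro π hπ
  rw [emultiplicity_le_emultiplicity_iff]
  intro m hm
  by_cases hm0 : m = 0
  · rw [hm0, pow_zero]
    exact one_dvd _
  have h1 : π ∣ radical p := by
    rw [dvd_radical_iff_of_irreducible hπ.irreducible hp]
    exact (dvd_pow_self π hm0).trans hm
  have h2 : m ≤ N := by
    have h3 := natDegree_le_of_dvd hm hp
    rw [natDegree_pow] at h3
    have h4 : 0 < π.natDegree := natDegree_pos_iff_degree_pos.2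
      (degree_pos_of_irreducible hπ.irreducible)
    nlinarith
  exact (pow_dvd_pow π h2).trans (pow_dvd_pow_of_dvd h1 N)

end uniform

section glue

variable {I : Type*} {k : I → Type u} [∀ F, Field (k F)]

/-- Glue polynomials of degree at most `D`. -/
noncomputable def glue (D : ℕ) (p : ∀ F, (k F)[X]) : (∀ F, k F)[X] :=
  ∑ j ∈ Finset.range (D + 1), monomial j fun F => (p F).coeff j

lemma coeff_glue (D : ℕ) (p : ∀ F, (k F)[X]) (j : ℕ) :
    (glue D p).coeff j = if j ≤ D then (fun F => (p F).coeff j) else 0 := by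
  unfold glue
  rw [finsetSum_coeff]
  simp only [coeff_monomial]
  rw [Finset.sum_ite_eq' (Finset.range (D + 1)) j]
  simp only [Finset.mem_range, Nat.lt_succ_iff]

lemma map_glue (D : ℕ) (p : ∀ F, (k F)[X]) (hp : ∀ F, (p F).natDegree ≤ D) (F : I) :
    (glue D p).map (Pi.evalRingHom k F) = p F := by
  ext j
  rw [coeff_map, coeff_glue]
  split_ifs with h
  · rfl
  · rw [map_zero, coeff_eq_zero_of_natDegree_lt]
    exact (hp F).trans_lt (not_le.1 h)

lemma ext_map {P Q : (∀ F, k F)[X]}
    (h : ∀ F, P.map (Pi.evalRingHom k F) = Q.map (Pi.evalRingHom k F)) : P = Q := by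
  ext j : 1
  funext F
  have := congrArg (fun p => coeff p j) (h F)
  simpa [coeff_map] using this

end glue

section hom

/-- The homogenisation. -/
noncomputable def hg {S : Type*} [CommRing S] [Algebra ℚ S] {m : ℕ} (G : MvPolynomial (Fin m) ℚ)
    (a : Fin m → S) (b : S) : S :=
  ∑ x ∈ G.support, algebraMap ℚ S (G.coeff x) *
    ((∏ j, a j ^ x j) * b ^ (G.totalDegree - ∑ j, x j))

lemma map_hg {S T : Type*} [CommRing S] [Algebra ℚ S] [CommRing T] [Algebra ℚ T] {m : ℕ}
    (G : MvPolynomial (Fin m) ℚ) (a : Fin m → S) (b : S) (f : S →+* T) :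
    f (hg G a b) = hg G (fun j => f (a j)) (f b) := by
  unfold hg
  rw [map_sum]
  refine Finset.sum_congr rfl fun x _ => ?_
  rw [map_mul, map_mul, map_prod, map_pow, RingHom.map_rat_algebraMap]
  simp only [map_pow]

lemma hg_eq {K : Type*} [Field K] [CharZero K] {m : ℕ}
    (G : MvPolynomial (Fin m) ℚ) (a : Fin m → K) {b : K} (hb : b ≠ 0) :
    hg G a b = b ^ G.totalDegree * MvPolynomial.aeval (fun j => a j / b) G := by
  unfold hg
  rw [MvPolynomial.aeval_def, MvPolynomial.eval₂_eq', Finset.mul_sum]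
  refine Finset.sum_congr rfl fun x hx => ?_
  have h1 : ∑ j, x j ≤ G.totalDegree := by
    have h2 := MvPolynomial.le_totalDegree hx
    rwa [Finsupp.sum_fintype _ _ (fun _ => rfl)] at h2
  have h2 : b ^ G.totalDegree = b ^ (G.totalDegree - ∑ j, x j) * b ^ (∑ j, x j) := by
    rw [← pow_add]
    congr 1
    omega
  have h3 : ∏ j, (a j / b) ^ x j = (∏ j, a j ^ x j) / b ^ (∑ j, x j) := by
    simp only [div_pow]
    rw [Finset.prod_div_distrib, Finset.prod_pow_eq_pow_sum]
  rw [h2, h3]
  field_simp

end hom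

end Pool.Agent.E8helper63.FA
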