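import Pool.Agent.E8helper63.FA.Select

/-! # The inequality -/

namespace Pool.Agent.E8helper63.FA

open Polynomial UniqueFactorizationMonoid

variable {k : Type*} [Field k] {K : Type*} [Field K] [Algebra k[X] K]
  [IsFractionRing k[X] K]

/-- Independent words give a nonzero minor. -/
lemma exists_minor {N : ℕ} (a : Fin (N + 1) → k[X]) (hsum : ∑ i, a i = 0)
    (L : Fin N → List (Derivation ℤ k[X] k[X]))
    (hind : LinearIndependent K (fun r : Fin N => vec K a (L r))) :
    ∃ j : Fin (N + 1), (WM L (fun x => a (j.succAbove x))).det ≠ 0 := by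
  refine ⟨0, fun hdet => ?_⟩
  rw [← Matrix.exists_vecMul_eq_zero_iff] at hdet
  obtain ⟨v, hv0, hv⟩ := hdet
  apply hv0
  have h1 : ∀ x : Fin N, ∑ r, v r * app (L r) (a ((0 : Fin (N + 1)).succAbove x)) = 0 :=
    fun x => congrFun hv x
  have h2 : ∀ i, ∑ r, v r * app (L r) (a i) = 0 := by
    intro i
    by_cases hi : i = 0
    · have h3 : ∑ i, ∑ r, v r * app (L r) (a i) = 0 := by
        rw [Finset.sum_comm]
        refine Finset.sum_eq_zero fun r _ => ?_
        rw [← Finset.mul_sum, app_sum_univ (L r) a hsum, mul_zero]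
      rw [Fin.sum_univ_succAbove _ 0, Finset.sum_eq_zero (fun x _ => h1 x), add_zero] at h3
      rw [hi]
      exact h3
    · obtain ⟨x, rfl⟩ := Fin.exists_succAbove_eq hi
      exact h1 x
  have h3 : ∑ r, (algebraMap k[X] K (v r)) • vec K a (L r) = 0 := by
    ext i
    rw [Finset.sum_apply]
    simp only [Pi.smul_apply, smul_eq_mul, vec, Pi.zero_apply]
    have h4 := congrArg (algebraMap k[X] K) (h2 i)
    rw [map_sum, map_zero] at h4
    simpa only [map_mul] using h4
  have h4 := Fintype.linearIndependent_iff.1 hind _ h3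
  ext r : 1
  have h5 := h4 r
  rwa [map_eq_zero_iff _ (IsFractionRing.injective k[X] K)] at h5

open scoped Classical in
/-- The inequality. -/
theorem abcd_tau [CharZero k] [CharZero K] {M τ : ℕ} (hτ : 1 ≤ τ) (hτM : τ ≤ M + 1)
    (a : Fin (M + 2 + 1) → k[X]) (ha : ∀ i, a i ≠ 0) (hsum : ∑ i, a i = 0)
    (hcop : ∀ d, (∀ i, d ∣ a i) → IsUnit d) (hnc : ∃ i, (a i).natDegree ≠ 0)
    (i0 : Fin (M + 2 + 1)) (e : Fin τ → Fin (M + 2 + 1))
    (halg : AlgebraicIndependent ℚ (fun j => algebraMap k[X] K (a (e j)) /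
      algebraMap k[X] K (a i0)))
    (hlin : τ + 2 < M + 2 + 1 → ∀ c : Fin (M + 2 + 1) → k, (∀ i, IsAlgebraic ℚ (c i)) →
      ∑ i, C (c i) * a i = 0 → ∀ i j, c i = c j)
    (h : ℕ) (hh' : ∃ i, (a i).natDegree = h) :
    h + 2 ≤ (M + 3 - τ).choose 2 * (radical (∏ i, a i)).natDegree +
      (if ∀ i, (a i).natDegree = h then 0 else 1) := by
  obtain ⟨L, hL⟩ := exists_sel (K := K) (by omega) ha hcop hnc hsum i0 e halg hlin (M + 2)
    (by omega) (by omega)
  have hshape : Shape τ (fun r : Fin (M + 2) => L r) := by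
    refine ⟨fun r => hL.good r r.2, ?_, ?_, fun r h1 h2 => ?_, fun r h1 => hL.three r r.2 h1⟩
    · exact hL.zero
    · exact hL.one
    · obtain ⟨D, hD⟩ := hL.two r h1 r.2 h2
      exact ⟨hor D, hD⟩
  exact main_ineq hshape hτ hτM a ha hsum hcop (exists_minor (K := K) a hsum _ hL.indep) h hh'

end Pool.Agent.E8helper63.FA
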