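import Pool.Agent.E8helper63.FA.Main

/-! # Points -/

namespace Pool.Agent.E8helper63.FA

open Polynomial UniqueFactorizationMonoid

/-- Nonconstant points of the hyperplane `Z_1 + ... + Z_n = 0` over `k(t)` without zero
coordinates, written with coprime polynomial coordinates. -/
structure Pt {k : Type*} [Field k] {n : ℕ} (a : Fin n → k[X]) : Prop where
  ne : ∀ i, a i ≠ 0
  sum : ∑ i, a i = 0
  cop : ∀ d, (∀ i, d ∣ a i) → IsUnit d
  nc : ∃ i, (a i).natDegree ≠ 0

/-- The height. -/
noncomputable def ht {k : Type*} [Field k] {n : ℕ} (a : Fin n → k[X]) : ℕ :=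
  Finset.univ.sup fun i => (a i).natDegree

open scoped Classical in
/-- The degree of the finite places that divide one of the coordinates. -/
noncomputable def fr {k : Type*} [Field k] {n : ℕ} (a : Fin n → k[X]) : ℕ :=
  (radical (∏ i, a i)).natDegree

open scoped Classical in
/-- The contribution of the infinite place. -/
noncomputable def inf {k : Type*} [Field k] {n : ℕ} (a : Fin n → k[X]) : ℕ :=
  if ∀ i, (a i).natDegree = ht a then 0 else 1

lemma exists_ht {k : Type*} [Field k] {n : ℕ} (hn : 0 < n) (a : Fin n → k[X]) :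
    ∃ i, (a i).natDegree = ht a := by
  obtain ⟨i, _, hi⟩ := Finset.exists_mem_eq_sup (Finset.univ : Finset (Fin n))
    ⟨⟨0, hn⟩, Finset.mem_univ _⟩ fun i => (a i).natDegree
  exact ⟨i, hi.symm⟩

lemma ht_eq_of_natDegree {k k' : Type*} [Field k] [Field k'] {n : ℕ} {a : Fin n → k[X]}
    {b : Fin n → k'[X]} (h : ∀ i, (a i).natDegree = (b i).natDegree) : ht a = ht b := by
  unfold ht
  simp only [h]

lemma inf_eq_of_natDegree {k k' : Type*} [Field k] [Field k'] {n : ℕ} {a : Fin n → k[X]}
    {b : Fin n → k'[X]} (h : ∀ i, (a i).natDegree = (b i).natDegree) : inf a = inf b := by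
  unfold inf
  rw [ht_eq_of_natDegree h]
  simp only [h]

/-- The inequality for points of transcendence degree `≥ τ`. -/
theorem Pt.ineq {k : Type*} [Field k] [CharZero k] {n τ : ℕ} (hτ : 1 ≤ τ) (hτn : τ + 2 ≤ n)
    {a : Fin n → k[X]} (ha : Pt a) (i0 : Fin n) (e : Fin τ → Fin n)
    (halg : AlgebraicIndependent ℚ (fun j => algebraMap k[X] (RatFunc k) (a (e j)) /
      algebraMap k[X] (RatFunc k) (a i0)))
    (hlin : τ + 2 < n → ∀ c : Fin n → k, (∀ i, IsAlgebraic ℚ (c i)) →
      ∑ i, C (c i) * a i = 0 → ∀ i j, c i = c j) :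
    ht a + 2 ≤ (n - τ).choose 2 * fr a + inf a := by
  obtain ⟨M, rfl⟩ : ∃ M, n = M + 2 + 1 := ⟨n - 3, by omega⟩
  have h := abcd_tau (K := RatFunc k) hτ (by omega) a ha.ne ha.sum ha.cop ha.nc i0 e halg hlin
    (ht a) (exists_ht (by omega) a)
  unfold fr inf
  convert h using 2

/-- The inequality for generic points. -/
theorem Pt.ineq_generic {k : Type*} [Field k] [CharZero k] {n : ℕ} (hn : 3 ≤ n)
    {a : Fin n → k[X]} (ha : Pt a) (i0 : Fin n) (e : Fin (n - 2) → Fin n)
    (halg : AlgebraicIndependent ℚ (fun j => algebraMap k[X] (RatFunc k) (a (e j)) /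
      algebraMap k[X] (RatFunc k) (a i0))) :
    ht a + 2 ≤ fr a + inf a := by
  have h := ha.ineq (τ := n - 2) (by omega) (by omega) i0 e halg (fun h => absurd h (by omega))
  have h1 : n - (n - 2) = 2 := by omega
  rw [h1, Nat.choose_self, one_mul] at h
  exact h

end Pool.Agent.E8helper63.FA
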