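import Pool.Agent.E8helper63.FA.Basic

/-! # The determinant inequality -/

namespace Pool.Agent.E8helper63.FA

open Polynomial

variable {k : Type*} [Field k]

/-- The matrix of the words applied to the `a i`. -/
noncomputable def WM {N n : ℕ} (L : Fin N → List (Derivation ℤ k[X] k[X])) (a : Fin n → k[X]) :
    Matrix (Fin N) (Fin n) k[X] := Matrix.of fun r i => app (L r) (a i)

/-- The loss of the `r`-th word. -/
def loss (τ r : ℕ) : ℕ := if r = 0 then 0 else if r = 1 then 1 else if r ≤ τ then 0 else r - τ + 1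

lemma sum_loss {τ : ℕ} (hτ : 1 ≤ τ) (m : ℕ) (hm : τ ≤ m) :
    ∑ r ∈ Finset.range (m + 1), loss τ r = (m + 2 - τ).choose 2 := by
  induction m, hm using Nat.le_induction with
  | base =>
    have h1 : τ + 2 - τ = 2 := by omega
    rw [h1, Nat.choose_self, Finset.sum_eq_single 1]
    · simp [loss]
    · intro b hb hb1
      rw [Finset.mem_range] at hb
      unfold loss
      split_ifs <;> omega
    · intro h
      rw [Finset.mem_range] at h
      omega
  | succ m hm ih =>
    rw [Finset.sum_range_succ, ih]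
    have h1 : loss τ (m + 1) = m + 2 - τ := by
      unfold loss
      rw [if_neg (by omega), if_neg (by omega), if_neg (by omega)]
      omega
    have h2 : m + 1 + 2 - τ = (m + 2 - τ) + 1 := by omega
    rw [h1, h2, Nat.choose_succ_succ' (m + 2 - τ) 1, Nat.choose_one_right]
    exact add_comm _ _

lemma sum_loss_fin {τ : ℕ} (hτ : 1 ≤ τ) (M : ℕ) (hm : τ ≤ M + 1) :
    ∑ r : Fin (M + 2), loss τ r = (M + 3 - τ).choose 2 := by
  rw [← Finset.sum_range (loss τ)]
  exact sum_loss hτ (M + 1) hm

/-- The shape of a family of words. -/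
structure Shape {M : ℕ} (τ : ℕ) (L : Fin (M + 2) → List (Derivation ℤ k[X] k[X])) : Prop where
  good : ∀ r, ∀ δ ∈ L r, Good δ
  zero : L 0 = []
  one : L 1 = [ver]
  two : ∀ r : Fin (M + 2), 2 ≤ (r : ℕ) → (r : ℕ) ≤ τ → ∃ D, L r = [D]
  three : ∀ r : Fin (M + 2), τ < (r : ℕ) → (L r).length ≤ r - τ + 1

variable [CharZero k] {M τ : ℕ} {L : Fin (M + 2) → List (Derivation ℤ k[X] k[X])}

/-- Orders: one minor. -/
lemma ord_minor (hL : Shape τ L) (hτ : 1 ≤ τ) (hτM : τ ≤ M + 1) {π : k[X]} (hπ : Irreducible π)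
    (b : Fin (M + 2) → k[X]) (m : Fin (M + 2) → ℕ) (hm : ∀ i, π ^ m i ∣ b i) :
    π ^ (∑ i, m i) ∣ π ^ ((M + 3 - τ).choose 2) * (WM L b).det := by
  classical
  choose! D hD using hL.two
  choose c hc using fun r : Fin (M + 2) => exists_sub_smul_dvd hπ (D r)
  let c' : Fin (M + 2) → k[X] := fun r => if 2 ≤ (r : ℕ) ∧ (r : ℕ) ≤ τ then c r else 0
  let W' : Matrix (Fin (M + 2)) (Fin (M + 2)) k[X] :=
    Matrix.of fun r i => WM L b r i - c' r * WM L b 1 i
  have hc1 : c' 1 = 0 := by
    apply if_neg
    simp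
  have hdet : (WM L b).det = W'.det := by
    refine Matrix.det_eq_of_forall_row_eq_smul_add_const c' 1 hc1 fun r i => ?_
    simp only [W', Matrix.of_apply, hc1]
    ring
  have h1 : ∀ r i : Fin (M + 2), π ^ m i ∣ π ^ (loss τ (r : ℕ)) * W' r i := by
    intro r i
    simp only [W', Matrix.of_apply]
    by_cases hr : 2 ≤ (r : ℕ) ∧ (r : ℕ) ≤ τ
    · have h2 : c' r = c r := if_pos hr
      have h3 : WM L b r i - c' r * WM L b 1 i =
          (D r - c r • ver : Derivation ℤ k[X] k[X]) (b i) := by
        rw [h2]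
        simp only [WM, Matrix.of_apply]
        rw [hD r hr.1 hr.2, hL.one]
        rfl
      rw [h3]
      exact Dvd.dvd.mul_left (pow_dvd_der_of_dvd _ (hc r) (hm i)) _
    · have h2 : c' r = 0 := if_neg hr
      rw [h2, zero_mul, sub_zero]
      simp only [WM, Matrix.of_apply]
      refine pow_dvd_pow_mul_app _ (hm i) ?_
      by_cases h4 : τ < (r : ℕ)
      · refine (hL.three r h4).trans ?_
        unfold loss
        split_ifs <;> omega
      · have h5 : (r : ℕ) = 0 ∨ (r : ℕ) = 1 := by omega
        rcases h5 with h5 | h5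
        · have : r = 0 := Fin.ext h5
          rw [this, hL.zero]
          simp
        · have : r = 1 := Fin.ext (by rw [h5]; simp)
          rw [this, hL.one]
          simp [loss]
  have h2 := prod_dvd_prod_mul_det W' (fun i => π ^ m i) (fun r => π ^ (loss τ r)) h1
  rw [Finset.prod_pow_eq_pow_sum, Finset.prod_pow_eq_pow_sum, ← hdet, sum_loss_fin hτ M hτM] at h2
  exact h2

omit [CharZero k] in
lemma app_sum_univ (L : List (Derivation ℤ k[X] k[X])) {n : ℕ} (a : Fin n → k[X])
    (hsum : ∑ i, a i = 0) : ∑ i, app L (a i) = 0 := by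
  rw [← app_sum, hsum, app_zero]

omit [CharZero k] in
/-- All maximal minors agree up to sign. -/
lemma minors_assoc {N : ℕ} (L : Fin N → List (Derivation ℤ k[X] k[X])) (a : Fin (N + 1) → k[X])
    (hsum : ∑ i, a i = 0) (i j : Fin (N + 1)) :
    Associated (WM L (fun x => a (i.succAbove x))).det (WM L (fun x => a (j.succAbove x))).det := by
  have h := Matrix.submatrix_succAbove_det_eq_negOnePow_submatrix_succAbove_det' (WM L a)
    (fun r => app_sum_univ (L r) a hsum) i j
  have h1 : ∀ i : Fin (N + 1), ((WM L a).submatrix id (Fin.succAbove i)) =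
      WM L (fun x => a (i.succAbove x)) := fun i => rfl
  rw [h1, h1] at h
  rw [h, Units.smul_def]
  rcases Int.units_eq_one_or (Int.negOnePow ((i : ℤ) - (j : ℤ))) with h2 | h2
  · rw [h2]
    simp
  · rw [h2]
    simp

open UniqueFactorizationMonoid in
open scoped Classical in
/-- The product divides the minor times a power of the radical. -/
lemma prod_dvd (hL : Shape τ L) (hτ : 1 ≤ τ) (hτM : τ ≤ M + 1) (a : Fin (M + 2 + 1) → k[X])
    (ha : ∀ i, a i ≠ 0) (hsum : ∑ i, a i = 0) (hcop : ∀ d, (∀ i, d ∣ a i) → IsUnit d)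
    (j : Fin (M + 2 + 1)) :
    ∏ i, a i ∣ (radical (∏ i, a i)) ^ ((M + 3 - τ).choose 2) *
      (WM L (fun x => a (j.succAbove x))).det := by
  have hP : ∏ i, a i ≠ 0 := Finset.prod_ne_zero_iff.2 fun i _ => ha i
  rw [dvd_iff_emultiplicity_le hP]
  intro π hπ
  rw [emultiplicity_le_emultiplicity_iff]
  intro m hm
  by_cases hm0 : m = 0
  · rw [hm0, pow_zero]
    exact one_dvd _
  obtain ⟨i0, hi0⟩ : ∃ i0, ¬ π ∣ a i0 := by
    by_contra hcon
    push Not at hcon
    exact hπ.not_isUnit (hcop π hcon)
  have hfin : ∀ i, FiniteMultiplicity π (a i) := fun i =>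
    FiniteMultiplicity.of_prime_left hπ (ha i)
  have h1 : m ≤ ∑ i, multiplicity π (a i) := by
    rw [pow_dvd_iff_le_emultiplicity, Finset.emultiplicity_prod hπ] at hm
    have h2 : ∑ x, emultiplicity π (a x) = ((∑ i, multiplicity π (a i) : ℕ) : ℕ∞) := by
      rw [Nat.cast_sum]
      exact Finset.sum_congr rfl fun i _ => (hfin i).emultiplicity_eq_multiplicity
    rw [h2] at hm
    exact_mod_cast hm
  have h2 : multiplicity π (a i0) = 0 := multiplicity_eq_zero.2 hi0
  rw [Fin.sum_univ_succAbove _ i0, h2, zero_add] at h1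
  have h3 := ord_minor hL hτ hτM hπ.irreducible (fun x => a (i0.succAbove x))
    (fun x => multiplicity π (a (i0.succAbove x))) (fun x => pow_multiplicity_dvd π _)
  have h4 : π ∣ radical (∏ i, a i) := by
    rw [dvd_radical_iff_of_irreducible hπ.irreducible hP]
    exact (dvd_pow_self π hm0).trans hm
  have h5 : (WM L (fun x => a (i0.succAbove x))).det ∣ (WM L (fun x => a (j.succAbove x))).det :=
    (minors_assoc L a hsum i0 j).dvd
  exact (pow_dvd_pow π h1).trans (h3.trans (mul_dvd_mul (pow_dvd_pow_of_dvd h4 _) h5))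

omit [CharZero k] in
lemma natDegree_X_mul_le (p : k[X]) : (X * p).natDegree ≤ p.natDegree + 1 := by
  refine natDegree_mul_le.trans ?_
  rw [natDegree_X]
  omega

omit [CharZero k] in
lemma natDegree_X_mul_derivative_le (p : k[X]) : (X * derivative p).natDegree ≤ p.natDegree := by
  by_cases hp : p.natDegree = 0
  · rw [natDegree_eq_zero] at hp
    obtain ⟨x, rfl⟩ := hp
    simp
  · have h1 := natDegree_derivative_lt hp
    have h2 := natDegree_X_mul_le (derivative p)
    omega

omit [CharZero k] in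
lemma natDegree_euler_le (p : k[X]) {h : ℕ} (hp : p.natDegree = h) :
    (X * (X * derivative p - C (h : k) * p)).natDegree ≤ h := by
  rcases Nat.eq_zero_or_pos h with h0 | h0
  · rw [h0, natDegree_eq_zero] at hp
    obtain ⟨x, rfl⟩ := hp
    simp [h0]
  · have h1 : (X * derivative p - C (h : k) * p).natDegree ≤ h - 1 := by
      rw [natDegree_le_iff_coeff_eq_zero]
      intro i hi
      obtain ⟨j, rfl⟩ : ∃ j, i = j + 1 := ⟨i - 1, by omega⟩
      rw [coeff_sub, coeff_X_mul, coeff_derivative, coeff_C_mul]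
      rcases Nat.lt_or_ge h (j + 1) with h2 | h2
      · rw [coeff_eq_zero_of_natDegree_lt (by omega)]
        simp
      · have : j + 1 = h := by omega
        rw [this, ← this]
        push_cast
        ring
    have h2 := natDegree_X_mul_le (X * derivative p - C (h : k) * p)
    omega

omit [CharZero k] in
/-- The degree of a minor. -/
lemma natDegree_minor (hL : Shape τ L) (b : Fin (M + 2) → k[X]) (hdet : (WM L b).det ≠ 0) :
    (WM L b).det.natDegree + 1 ≤ ∑ i, (b i).natDegree := by
  classical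
  have h1 : (Matrix.of fun r i => (if r = 1 then X else 1) * WM L b r i).det =
      X * (WM L b).det := by
    rw [Matrix.det_mul_column (fun r : Fin (M + 2) => if r = 1 then (X : k[X]) else 1)]
    congr 1
    rw [Finset.prod_ite_eq']
    simp
  have h2 : (X * (WM L b).det).natDegree ≤ ∑ i, (b i).natDegree := by
    rw [← h1]
    refine natDegree_det_le _ _ fun r i => ?_
    simp only [Matrix.of_apply]
    split_ifs with hr
    · rw [hr]
      simp only [WM, Matrix.of_apply]
      rw [hL.one]
      exact natDegree_X_mul_derivative_le _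
    · rw [one_mul]
      exact natDegree_app_le _ (hL.good r) _
  rw [natDegree_X_mul hdet] at h2
  exact h2

omit [CharZero k] in
/-- The degree of a minor if all degrees are equal. -/
lemma natDegree_minor' (hL : Shape τ L) (b : Fin (M + 2) → k[X]) (hdet : (WM L b).det ≠ 0)
    {h : ℕ} (hb : ∀ i, (b i).natDegree = h) :
    (WM L b).det.natDegree + 2 ≤ (M + 2) * h := by
  classical
  have h0 : (0 : Fin (M + 2)) ≠ 1 := by
    simp
  let c : Fin (M + 2) → k[X] := fun r => if r = 1 then - (C (h : k) * X) else 0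
  let W1 : Matrix (Fin (M + 2)) (Fin (M + 2)) k[X] :=
    Matrix.of fun r i => (if r = 1 then X ^ 2 else 1) * WM L b r i
  let W2 : Matrix (Fin (M + 2)) (Fin (M + 2)) k[X] :=
    Matrix.of fun r i => W1 r i + c r * W1 0 i
  have h1 : W1.det = X ^ 2 * (WM L b).det := by
    simp only [W1]
    rw [Matrix.det_mul_column (fun r : Fin (M + 2) => if r = 1 then (X : k[X]) ^ 2 else 1)]
    congr 1
    rw [Finset.prod_ite_eq']
    simp
  have hc0 : c 0 = 0 := if_neg h0
  have h2 : W2.det = W1.det :=
    Matrix.det_eq_of_forall_row_eq_smul_add_const c 0 hc0 fun r i => rfl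
  have h3 : W2.det.natDegree ≤ ∑ _i : Fin (M + 2), h := by
    refine natDegree_det_le _ _ fun r i => ?_
    simp only [W2, W1, c, Matrix.of_apply]
    rw [if_neg h0]
    split_ifs with hr
    · rw [hr]
      simp only [WM, Matrix.of_apply]
      rw [hL.one, hL.zero]
      have h4 : X ^ 2 * app [ver] (b i) + -(C (h : k) * X) * (1 * app [] (b i)) =
          X * (X * derivative (b i) - C (h : k) * b i) := by
        simp only [app_cons, app_nil, ver_apply]
        ring
      rw [h4]
      exact natDegree_euler_le _ (hb i)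
    · rw [one_mul, zero_mul, add_zero, ← hb i]
      exact natDegree_app_le _ (hL.good r) _
  rw [h2, h1, pow_two, mul_assoc, natDegree_X_mul (mul_ne_zero X_ne_zero hdet),
    natDegree_X_mul hdet, Finset.sum_const, Finset.card_univ, Fintype.card_fin, smul_eq_mul] at h3
  omega

open UniqueFactorizationMonoid in
open scoped Classical in
/-- The main inequality, for given words. -/
theorem main_ineq (hL : Shape τ L) (hτ : 1 ≤ τ) (hτM : τ ≤ M + 1) (a : Fin (M + 2 + 1) → k[X])
    (ha : ∀ i, a i ≠ 0) (hsum : ∑ i, a i = 0) (hcop : ∀ d, (∀ i, d ∣ a i) → IsUnit d)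
    (hdet : ∃ j : Fin (M + 2 + 1), (WM L (fun x => a (j.succAbove x))).det ≠ 0)
    (h : ℕ) (hh' : ∃ i, (a i).natDegree = h) :
    h + 2 ≤ (M + 3 - τ).choose 2 * (radical (∏ i, a i)).natDegree +
      (if ∀ i, (a i).natDegree = h then 0 else 1) := by
  obtain ⟨i1, hi1⟩ := hh'
  have hdet' : (WM L (fun x => a (i1.succAbove x))).det ≠ 0 := by
    obtain ⟨j, hj⟩ := hdet
    exact ((minors_assoc L a hsum j i1).ne_zero_iff).1 hj
  have h1 := prod_dvd hL hτ hτM a ha hsum hcop i1
  have hP : ∏ i, a i ≠ 0 := Finset.prod_ne_zero_iff.2 fun i _ => ha i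
  have hR : radical (∏ i, a i) ≠ 0 := radical_ne_zero
  have h2 := natDegree_le_of_dvd h1 (mul_ne_zero (pow_ne_zero _ hR) hdet')
  rw [natDegree_mul (pow_ne_zero _ hR) hdet', natDegree_pow,
    natDegree_prod _ _ fun i _ => ha i, Fin.sum_univ_succAbove _ i1, hi1] at h2
  split_ifs with hall
  · have h3 := natDegree_minor' hL (fun x => a (i1.succAbove x)) hdet' (fun i => hall _)
    have h4 : ∑ i : Fin (M + 2), (a (i1.succAbove i)).natDegree = (M + 2) * h := by
      rw [Finset.sum_congr rfl fun i _ => hall (i1.succAbove i)]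
      simp
    rw [h4] at h2
    omega
  · have h3 := natDegree_minor hL (fun x => a (i1.succAbove x)) hdet'
    omega

end Pool.Agent.E8helper63.FA
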