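import Pool.Agent.E8helper63.FA.Const
import Pool.Agent.E8helper63.FA.Wron

/-! # Selection of the words -/

namespace Pool.Agent.E8helper63.FA

open Polynomial

variable {k : Type*} [Field k] (K : Type*) [Field K] [Algebra k[X] K]
  [IsFractionRing k[X] K]

/-- The vector of a word. -/
noncomputable def vec {n : ℕ} (a : Fin n → k[X]) (L : List (Derivation ℤ k[X] k[X])) : Fin n → K :=
  fun i => algebraMap k[X] K (app L (a i))

/-- The partial selections. -/
structure Sel {n : ℕ} (a : Fin n → k[X]) (τ s : ℕ) (L : ℕ → List (Derivation ℤ k[X] k[X])) :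
    Prop where
  good : ∀ r < s, ∀ δ ∈ L r, Good δ
  zero : L 0 = []
  one : L 1 = [ver]
  two : ∀ r, 2 ≤ r → r < s → r ≤ τ → ∃ D : Derivation ℤ k k, L r = [hor D]
  three : ∀ r < s, τ < r → (L r).length ≤ r - τ + 1
  indep : LinearIndependent K (fun r : Fin s => vec K a (L r))

variable {K} {n : ℕ} {a : Fin n → k[X]} {τ : ℕ}

omit [IsFractionRing k[X] K] in
/-- Extension of a selection. -/
lemma Sel.extend {s : ℕ} (hs : 2 ≤ s) {L : ℕ → List (Derivation ℤ k[X] k[X])} (h : Sel K a τ s L)
    (w : List (Derivation ℤ k[X] k[X])) (hw : ∀ δ ∈ w, Good δ)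
    (hw2 : s ≤ τ → ∃ D : Derivation ℤ k k, w = [hor D]) (hw3 : τ < s → w.length ≤ s - τ + 1)
    (hw4 : vec K a w ∉ Submodule.span K (Set.range fun r : Fin s => vec K a (L r))) :
    Sel K a τ (s + 1) (Function.update L s w) := by
  have hne : ∀ r, r ≠ s → Function.update L s w r = L r := fun r hr =>
    Function.update_of_ne hr _ _
  refine ⟨?_, ?_, ?_, ?_, ?_, ?_⟩
  · intro r hr
    by_cases h1 : r = s
    · rw [h1, Function.update_self]
      exact hw
    · rw [hne r h1]
      exact h.good r (by omega)
  · rw [hne 0 (by omega), h.zero]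
  · rw [hne 1 (by omega), h.one]
  · intro r h2 h3 h4
    by_cases h1 : r = s
    · rw [h1, Function.update_self]
      exact hw2 (by omega)
    · rw [hne r h1]
      exact h.two r h2 (by omega) h4
  · intro r h2 h3
    by_cases h1 : r = s
    · rw [h1, Function.update_self]
      exact hw3 (by omega)
    · rw [hne r h1]
      exact h.three r (by omega) h3
  · have h1 : (fun r : Fin (s + 1) => vec K a (Function.update L s w r)) =
        Fin.snoc (fun r : Fin s => vec K a (L r)) (vec K a w) := by
      ext r i
      refine Fin.lastCases ?_ (fun r => ?_) r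
      · rw [Fin.snoc_last, Fin.val_last, Function.update_self]
      · rw [Fin.snoc_castSucc, Fin.val_castSucc, hne _ (by omega)]
    rw [h1, linearIndependent_finSnoc]
    exact ⟨h.indep, hw4⟩

/-- Bezout. -/
lemma exists_bezout (hcop : ∀ d, (∀ i, d ∣ a i) → IsUnit d) :
    ∃ u : Fin n → k[X], ∑ i, u i * a i = 1 := by
  rw [← Ideal.mem_span_range_iff_exists_fun, ← Ideal.eq_top_iff_one]
  rw [← Ideal.span_singleton_generator (Ideal.span (Set.range a)), Ideal.span_singleton_eq_top]
  refine hcop _ fun i => ?_
  rw [← Submodule.IsPrincipal.mem_iff_generator_dvd]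
  exact Ideal.subset_span ⟨i, rfl⟩

lemma natDegree_eq_zero_of_dvd_derivative [CharZero k] {p : k[X]} (h : p ∣ derivative p) :
    p.natDegree = 0 := by
  by_contra h1
  have h2 := natDegree_derivative_lt h1
  have h3 : derivative p ≠ 0 := by
    intro h4
    exact h1 (derivative_eq_zero.1 h4)
  have h4 := natDegree_le_of_dvd h h3
  omega

/-- The start of the selection. -/
lemma sel_two [CharZero k] (hn : 0 < n) (ha : ∀ i, a i ≠ 0)
    (hcop : ∀ d, (∀ i, d ∣ a i) → IsUnit d) (hnc : ∃ i, (a i).natDegree ≠ 0) :
    Sel K a τ 2 (fun r => if r = 0 then [] else [ver]) := by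
  refine ⟨?_, ?_, ?_, ?_, ?_, ?_⟩
  · intro r hr δ hδ
    split_ifs at hδ with h1
    · simp at hδ
    · rw [List.mem_singleton] at hδ
      rw [hδ]
      exact good_ver
  · simp
  · simp
  · intro r h1 h2
    omega
  · intro r h1 h2
    split_ifs with h3
    · simp
    · simp
  · have h1 : (fun r : Fin 2 => vec K a (if (r : ℕ) = 0 then [] else [ver])) =
        ![vec K a [], vec K a [ver]] := by
      ext r
      fin_cases r <;> rfl
    rw [h1, LinearIndependent.pair_iff']
    · intro c hc
      obtain ⟨u, hu⟩ := exists_bezout hcop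
      have h2 : ∀ i, c * algebraMap k[X] K (a i) = algebraMap k[X] K (derivative (a i)) :=
        fun i => congrFun hc i
      have h3 : c = algebraMap k[X] K (∑ i, u i * derivative (a i)) := by
        rw [map_sum]
        have h4 := congrArg (algebraMap k[X] K) hu
        rw [map_sum, map_one] at h4
        calc c = c * ∑ i, algebraMap k[X] K (u i * a i) := by rw [h4, mul_one]
          _ = ∑ i, algebraMap k[X] K (u i * derivative (a i)) := by
            rw [Finset.mul_sum]
            refine Finset.sum_congr rfl fun i _ => ?_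
            rw [map_mul, map_mul, ← h2]
            ring
      obtain ⟨i, hi⟩ := hnc
      apply hi
      apply natDegree_eq_zero_of_dvd_derivative
      refine Dvd.intro (∑ i, u i * derivative (a i)) ?_
      apply IsFractionRing.injective k[X] K
      rw [map_mul, ← h3, mul_comm, h2]
    · intro h2
      have h3 := congrFun h2 ⟨0, hn⟩
      change algebraMap k[X] K (a ⟨0, hn⟩) = 0 at h3
      rw [map_eq_zero_iff _ (IsFractionRing.injective k[X] K)] at h3
      exact ha _ h3

/-- The quotient map. -/
noncomputable def Phi (α : Fin n → K) (i0 : Fin n) (e : Fin τ → Fin n) :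
    (Fin n → K) →ₗ[K] (Fin τ → K) where
  toFun v j := (α i0 ^ 2)⁻¹ * (α i0 * v (e j) - α (e j) * v i0)
  map_add' v w := by
    ext j
    simp only [Pi.add_apply]
    ring
  map_smul' c v := by
    ext j
    simp only [Pi.smul_apply, smul_eq_mul, RingHom.id_apply]
    ring

lemma Phi_der (i0 : Fin n) (e : Fin τ → Fin n) (δ : Derivation ℤ k[X] k[X]) (j : Fin τ) :
    Phi (vec K a []) i0 e (vec K a [δ]) j =
      ext K δ (algebraMap k[X] K (a (e j)) / algebraMap k[X] K (a i0)) := by
  rw [Derivation.leibniz_div, ext_algebraMap, ext_algebraMap]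
  simp only [smul_eq_mul, Phi, LinearMap.coe_mk, AddHom.coe_mk, vec, app_cons, app_nil, inv_pow]

/-- The steps up to `τ`. -/
lemma step_A [CharZero k] [CharZero K] {s : ℕ} (hs : 2 ≤ s) (hsτ : s ≤ τ)
    {L : ℕ → List (Derivation ℤ k[X] k[X])}
    (h : Sel K a τ s L) (i0 : Fin n) (e : Fin τ → Fin n)
    (halg : AlgebraicIndependent ℚ (fun j => algebraMap k[X] K (a (e j)) /
      algebraMap k[X] K (a i0))) :
    ∃ D : Derivation ℤ k k, vec K a [hor D] ∉
      Submodule.span K (Set.range fun r : Fin s => vec K a (L r)) := by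
  by_contra hcon
  push Not at hcon
  set V := Submodule.span K (Set.range fun r : Fin s => vec K a (L r)) with hV
  let Φ := Phi (vec K a []) i0 e
  have hrank : Module.finrank K V = s := by
    rw [hV, finrank_span_eq_card h.indep, Fintype.card_fin]
  have h0V : vec K a [] ∈ V := by
    apply Submodule.subset_span
    refine ⟨⟨0, by omega⟩, ?_⟩
    simp only
    rw [h.zero]
  have h1V : vec K a [ver] ∈ V := by
    apply Submodule.subset_span
    refine ⟨⟨1, by omega⟩, ?_⟩
    simp only
    rw [h.one]
  have hΦ0 : Φ (vec K a []) = 0 := by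
    ext j
    simp only [Φ, Phi, LinearMap.coe_mk, AddHom.coe_mk, Pi.zero_apply]
    ring
  have h0ne : vec K a [] ≠ 0 := by
    have := h.indep.ne_zero ⟨0, by omega⟩
    simp only at this
    rwa [h.zero] at this
  have hlt : V.map Φ < ⊤ := by
    apply Submodule.lt_top_of_finrank_lt_finrank
    rw [Module.finrank_fin_fun]
    have h1 := LinearMap.finrank_range_add_finrank_ker (Φ.domRestrict V)
    rw [hrank, LinearMap.range_domRestrict] at h1
    have h2 : Module.finrank K (LinearMap.ker (Φ.domRestrict V)) ≠ 0 := by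
      intro h3
      rw [Submodule.finrank_eq_zero] at h3
      have h4 : (⟨vec K a [], h0V⟩ : V) ∈ LinearMap.ker (Φ.domRestrict V) := by
        rw [LinearMap.mem_ker, LinearMap.domRestrict_apply]
        exact hΦ0
      rw [h3, Submodule.mem_bot] at h4
      exact h0ne (congrArg (fun x : V => (x : Fin n → K)) h4)
    omega
  obtain ⟨f, hf0, hf⟩ := Submodule.exists_le_ker_of_lt_top _ hlt
  have hfc : ∀ v, f v = ∑ j, f (Pi.single j 1) * v j := by
    intro v
    conv_lhs => rw [pi_eq_sum_univ' v]
    rw [map_sum]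
    refine Finset.sum_congr rfl fun j _ => ?_
    rw [map_smul, smul_eq_mul, mul_comm]
  have hfV : ∀ v ∈ V, f (Φ v) = 0 := fun v hv =>
    LinearMap.mem_ker.1 (hf (Submodule.mem_map_of_mem hv))
  have key : ∀ η : Derivation ℤ K K, ∑ j, f (Pi.single j 1) *
      η (algebraMap k[X] K (a (e j)) / algebraMap k[X] K (a i0)) = 0 := by
    intro η
    apply key_formula (k := k)
    · have h1 := hfV _ h1V
      rw [hfc] at h1
      simpa only [Φ, Phi_der] using h1
    · intro D
      have h1 := hfV _ (hcon D)
      rw [hfc] at h1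
      simpa only [Φ, Phi_der] using h1
  obtain ⟨j1, hj1⟩ : ∃ j1, f (Pi.single j1 1) ≠ 0 := by
    by_contra hall
    push Not at hall
    apply hf0
    ext j
    simp [hall]
  obtain ⟨D, hD⟩ := Pool.Agent.H135R2.VS.exists_der halg (fun j => if j = j1 then 1 else 0)
  have h2 := key (D.restrictScalars ℤ)
  rw [Finset.sum_eq_single j1] at h2
  · change _ * D _ = 0 at h2
    rw [hD, if_pos rfl, mul_one] at h2
    exact hj1 h2
  · intro j _ hj
    change _ * D _ = 0
    rw [hD, if_neg hj, mul_zero]
  · intro h3
    exact absurd (Finset.mem_univ _) h3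

/-- The annihilator. -/
def Ann {s : ℕ} (v : Fin s → Fin n → K) : Submodule K (Fin n → K) where
  carrier := {c | ∀ r, ∑ i, c i * v r i = 0}
  zero_mem' := by intro r; simp
  add_mem' := by
    intro c d hc hd r
    simp only [Pi.add_apply, add_mul, Finset.sum_add_distrib]
    rw [hc r, hd r, add_zero]
  smul_mem' := by
    intro x c hc r
    simp only [Pi.smul_apply, smul_eq_mul, mul_assoc]
    rw [← Finset.mul_sum, hc r, mul_zero]

omit [IsFractionRing k[X] K] [Algebra k[X] K] [Field k] in
lemma mem_ann_span {s : ℕ} {v : Fin s → Fin n → K} {c : Fin n → K} (hc : c ∈ Ann v)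
    {w : Fin n → K} (hw : w ∈ Submodule.span K (Set.range v)) : ∑ i, c i * w i = 0 := by
  induction hw using Submodule.span_induction with
  | mem x hx =>
    obtain ⟨r, rfl⟩ := hx
    exact hc r
  | zero => simp
  | add x y _ _ hx hy =>
    simp only [Pi.add_apply, mul_add, Finset.sum_add_distrib]
    rw [hx, hy, add_zero]
  | smul a x _ hx =>
    simp only [Pi.smul_apply, smul_eq_mul, mul_left_comm _ a]
    rw [← Finset.mul_sum, hx, mul_zero]

omit [IsFractionRing k[X] K] [Algebra k[X] K] [Field k] in
/-- There is an element of the annihilator that is not a multiple of a given one. -/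
lemma exists_ann {s : ℕ} (v : Fin s → Fin n → K) (hs : s + 2 ≤ n) (u : Fin n → K) :
    ∃ c ∈ Ann v, ∀ x : K, c ≠ x • u := by
  by_contra hcon
  push Not at hcon
  have h1 : Ann v ≤ Submodule.span K {u} := by
    intro c hc
    obtain ⟨x, hx⟩ := hcon c hc
    rw [hx]
    exact Submodule.smul_mem _ _ (Submodule.mem_span_singleton_self u)
  let f : (Fin n → K) →ₗ[K] (Fin s → K) :=
    { toFun := fun c r => ∑ i, c i * v r i
      map_add' := by
        intro c d
        ext r
        simp only [Pi.add_apply, add_mul, Finset.sum_add_distrib]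
      map_smul' := by
        intro x c
        ext r
        simp only [Pi.smul_apply, smul_eq_mul, mul_assoc, RingHom.id_apply, Finset.mul_sum] }
  have h2 : LinearMap.ker f = Ann v := by
    ext c
    rw [LinearMap.mem_ker]
    constructor
    · intro h r
      exact congrFun h r
    · intro h
      ext r
      exact h r
  have h3 := LinearMap.finrank_range_add_finrank_ker f
  rw [h2, Module.finrank_fin_fun] at h3
  have h4 : Module.finrank K (LinearMap.range f) ≤ s := by
    have := Submodule.finrank_le (LinearMap.range f)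
    rwa [Module.finrank_fin_fun] at this
  have h5 : Module.finrank K (Ann v) ≤ 1 := by
    refine (Submodule.finrank_mono h1).trans ?_
    have h6 := finrank_span_le_card (R := K) ({u} : Set (Fin n → K))
    simpa using h6
  omega

/-- The later steps. -/
lemma step_B [CharZero k] {s : ℕ} (hs : 1 ≤ s) (hsn : s + 2 ≤ n)
    {L : ℕ → List (Derivation ℤ k[X] k[X])} (hL0 : L 0 = []) (hsum : ∑ i, a i = 0)
    (hlin : ∀ c : Fin n → k, (∀ i, IsAlgebraic ℚ (c i)) → ∑ i, C (c i) * a i = 0 →
      ∀ i j, c i = c j) :
    ∃ r < s, ∃ δ : Derivation ℤ k[X] k[X], (δ = ver ∨ ∃ D : Derivation ℤ k k, δ = hor D) ∧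
      vec K a (δ :: L r) ∉ Submodule.span K (Set.range fun r : Fin s => vec K a (L r)) := by
  classical
  by_contra hcon
  push Not at hcon
  let v : Fin s → Fin n → K := fun r => vec K a (L r)
  have hn : 0 < n := by omega
  let i0 : Fin n := ⟨0, hn⟩
  have h1 : (fun _ => 1 : Fin n → K) ∈ Ann v := by
    intro r
    simp only [one_mul, v, vec]
    rw [← map_sum, ← app_sum, hsum, app_zero, map_zero]
  -- elements of the annihilator vanishing at `i0`
  let Q : ℕ → Prop := fun m => ∃ c ∈ Ann v, c i0 = 0 ∧ c ≠ 0 ∧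
    (Finset.univ.filter fun i => c i ≠ 0).card = m
  have hQ : ∃ m, Q m := by
    obtain ⟨c, hc, hc1⟩ := exists_ann v hsn (fun _ => 1)
    refine ⟨_, c - c i0 • (fun _ => 1), ?_, ?_, ?_, rfl⟩
    · exact Submodule.sub_mem _ hc (Submodule.smul_mem _ _ h1)
    · simp
    · intro h
      exact hc1 (c i0) (sub_eq_zero.1 h)
  obtain ⟨c, hc, hc0, hcne, hcard⟩ := Nat.find_spec hQ
  obtain ⟨i1, hi1⟩ : ∃ i1, c i1 ≠ 0 := by
    by_contra h
    push Not at h
    exact hcne (funext h)
  -- normalise
  let d : Fin n → K := fun i => (c i1)⁻¹ * c i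
  have hd : d ∈ Ann v := Submodule.smul_mem _ (c i1)⁻¹ hc
  have hd0 : d i0 = 0 := by simp [d, hc0]
  have hd1 : d i1 = 1 := inv_mul_cancel₀ hi1
  have hdd : ∀ i, d i = 0 ↔ c i = 0 := by
    intro i
    simp [d, hi1]
  -- all basic derivations kill `d`
  have hkill : ∀ δ : Derivation ℤ k[X] k[X], (δ = ver ∨ ∃ D : Derivation ℤ k k, δ = hor D) →
      ∀ i, ext K δ (d i) = 0 := by
    intro δ hδ
    let d' : Fin n → K := fun i => ext K δ (d i)
    have hd' : d' ∈ Ann v := by
      intro r
      have h2 := congrArg (ext K δ) (hd r)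
      rw [map_zero, map_sum] at h2
      have h3 : ∀ i, ext K δ (d i * v r i) = d i * vec K a (δ :: L r) i + d' i * v r i := by
        intro i
        rw [Derivation.leibniz]
        simp only [v, vec, smul_eq_mul, ext_algebraMap, app_cons, d']
        ring
      simp only [h3, Finset.sum_add_distrib] at h2
      rw [mem_ann_span hd (hcon r r.2 δ hδ), zero_add] at h2
      exact h2
    by_contra hne
    push Not at hne
    obtain ⟨i2, hi2⟩ := hne
    have h4 : (Finset.univ.filter fun i => d' i ≠ 0).card < Nat.find hQ := by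
      rw [← hcard]
      apply Finset.card_lt_card
      rw [Finset.ssubset_iff_of_subset]
      · refine ⟨i1, by simp [hi1], ?_⟩
        simp [d', hd1]
      · intro i hi
        rw [Finset.mem_filter] at hi ⊢
        refine ⟨hi.1, fun h5 => hi.2 ?_⟩
        simp only [d']
        rw [(hdd i).2 h5, map_zero]
    refine Nat.find_min hQ h4 ⟨d', hd', ?_, ?_, rfl⟩
    · simp [d', hd0]
    · intro h5
      exact hi2 (congrFun h5 i2)
  have hconst : ∀ i, ∃ z : k, d i = algebraMap k[X] K (C z) ∧ IsAlgebraic ℚ z := fun i =>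
    const_of_all (hkill _ (Or.inl rfl) i) fun D => hkill _ (Or.inr ⟨D, rfl⟩) i
  choose z hz hzalg using hconst
  have hrel : ∑ i, C (z i) * a i = 0 := by
    apply IsFractionRing.injective k[X] K
    rw [map_sum, map_zero]
    have h2 := hd ⟨0, by omega⟩
    simp only [v, hL0, vec, app_nil, hz] at h2
    simpa only [map_mul] using h2
  have h2 := hlin z hzalg hrel i0 i1
  have h3 : d i0 = d i1 := by rw [hz, hz, h2]
  rw [hd0, hd1] at h3
  exact zero_ne_one h3

/-- The selection. -/
theorem exists_sel [CharZero k] [CharZero K] (hn : 0 < n) (ha : ∀ i, a i ≠ 0)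
    (hcop : ∀ d, (∀ i, d ∣ a i) → IsUnit d) (hnc : ∃ i, (a i).natDegree ≠ 0)
    (hsum : ∑ i, a i = 0) (i0 : Fin n) (e : Fin τ → Fin n)
    (halg : AlgebraicIndependent ℚ (fun j => algebraMap k[X] K (a (e j)) /
      algebraMap k[X] K (a i0)))
    (hlin : τ + 2 < n → ∀ c : Fin n → k, (∀ i, IsAlgebraic ℚ (c i)) → ∑ i, C (c i) * a i = 0 →
      ∀ i j, c i = c j) (s : ℕ) (hs : 2 ≤ s) (hsn : s + 1 ≤ n) :
    ∃ L : ℕ → List (Derivation ℤ k[X] k[X]), Sel K a τ s L := by
  induction s, hs using Nat.le_induction with
  | base => exact ⟨_, sel_two hn ha hcop hnc⟩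
  | succ s hs ih =>
    obtain ⟨L, hL⟩ := ih (by omega)
    by_cases hsτ : s ≤ τ
    · obtain ⟨D, hD⟩ := step_A hs hsτ hL i0 e halg
      refine ⟨_, hL.extend hs [hor D] ?_ (fun _ => ⟨D, rfl⟩) (fun h => absurd h (by omega)) hD⟩
      intro δ hδ
      rw [List.mem_singleton] at hδ
      rw [hδ]
      exact good_hor D
    · obtain ⟨r, hr, δ, hδ, hw⟩ := step_B (K := K) (a := a) (s := s) (by omega) (by omega)
        hL.zero hsum (hlin (by omega))
      refine ⟨_, hL.extend hs (δ :: L r) ?_ (fun h => absurd h (by omega)) (fun _ => ?_) hw⟩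
      · intro δ' hδ'
        rw [List.mem_cons] at hδ'
        rcases hδ' with h1 | h1
        · rw [h1]
          rcases hδ with h2 | ⟨D, h2⟩
          · rw [h2]
            exact good_ver
          · rw [h2]
            exact good_hor D
        · exact hL.good r hr δ' h1
      · rw [List.length_cons]
        by_cases h1 : τ < r
        · have := hL.three r hr h1
          omega
        · have h2 : (L r).length ≤ 1 := by
            rcases Nat.lt_or_ge r 2 with h3 | h3
            · have h4 : r = 0 ∨ r = 1 := by omega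
              rcases h4 with h4 | h4
              · rw [h4, hL.zero]
                simp
              · rw [h4, hL.one]
                simp
            · obtain ⟨D, hD⟩ := hL.two r h3 hr (by omega)
              rw [hD]
              simp
          omega

end Pool.Agent.E8helper63.FA
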