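import Pool.Agent.E8helper63.FA.Glue

/-! # Points of a fixed type outside all the hypersurfaces give a generic point -/

namespace Pool.Agent.E8helper63.FA

open Polynomial UniqueFactorizationMonoid

universe u

/-- The quotients of the coordinates. -/
noncomputable def rat {k : Type*} [Field k] {M : ℕ} (a : Fin (M + 2 + 1) → k[X]) (j : Fin (M + 1)) :
    RatFunc k :=
  algebraMap k[X] (RatFunc k) (a j.castSucc.castSucc) /
    algebraMap k[X] (RatFunc k) (a (Fin.last (M + 2)))

/-- The index set. -/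
abbrev Ix (M : ℕ) : Type := {F : MvPolynomial (Fin (M + 1)) ℚ // F ≠ 0}

section

variable {M : ℕ} {k : Ix M → Type u} [∀ F, Field (k F)]

/-- The ideal of the families that vanish at all the multiples of some polynomial. -/
def JJ (k : Ix M → Type u) [∀ F, Field (k F)] : Ideal (∀ F, k F) where
  carrier := {x | ∃ F : Ix M, ∀ G : Ix M, F.1 ∣ G.1 → x G = 0}
  zero_mem' := ⟨⟨1, one_ne_zero⟩, fun _ _ => rfl⟩
  add_mem' := by
    rintro x y ⟨F, hF⟩ ⟨F', hF'⟩
    refine ⟨⟨F.1 * F'.1, mul_ne_zero F.2 F'.2⟩, fun G hG => ?_⟩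
    rw [Pi.add_apply, hF G ((Dvd.intro _ rfl).trans hG), hF' G ((Dvd.intro_left _ rfl).trans hG),
      add_zero]
  smul_mem' := by
    rintro c x ⟨F, hF⟩
    refine ⟨F, fun G hG => ?_⟩
    rw [Pi.smul_apply', hF G hG, smul_zero]

lemma JJ_ne_top : JJ k ≠ ⊤ := by
  rw [Ideal.ne_top_iff_one]
  rintro ⟨F, hF⟩
  exact one_ne_zero (hF F dvd_rfl)

variable {S : Type*} [Field S] (φ : (∀ F, k F) →+* S)

omit [∀ F, Field (k F)] in
lemma mk_ne_zero [∀ F, Field (k F)] (φ : (∀ F, k F) →+* S) {x : ∀ F, k F} (hx : ∀ F, x F ≠ 0) :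
    φ x ≠ 0 := by
  intro h
  have h1 : x * (fun F => (x F)⁻¹) = 1 := by
    funext F
    exact mul_inv_cancel₀ (hx F)
  have h2 := congrArg φ h1
  rw [map_mul, h, zero_mul, map_one] at h2
  exact zero_ne_one h2

omit φ in
lemma charZero_of_mk [∀ F, CharZero (k F)] (φ : (∀ F, k F) →+* S) : CharZero S := by
  refine charZero_of_inj_zero fun n hn => ?_
  by_contra h0
  have h1 : φ (n : ∀ F, k F) ≠ 0 := mk_ne_zero φ fun F => by
    rw [Pi.natCast_apply]
    exact Nat.cast_ne_zero.2 h0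
  rw [map_natCast] at h1
  exact h1 hn

variable {d : Fin (M + 2 + 1) → ℕ} {r : ℕ} {a : ∀ F : Ix M, Fin (M + 2 + 1) → (k F)[X]}

/-- The glued coordinates. -/
noncomputable def AA (a : ∀ F : Ix M, Fin (M + 2 + 1) → (k F)[X]) (d : Fin (M + 2 + 1) → ℕ)
    (i : Fin (M + 2 + 1)) : (∀ F, k F)[X] := glue (d i) fun F => a F i

lemma map_AA (hd : ∀ F i, (a F i).natDegree = d i) (i : Fin (M + 2 + 1)) (F : Ix M) :
    (AA a d i).map (Pi.evalRingHom k F) = a F i :=
  map_glue _ _ (fun F => (hd F i).le) F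

lemma natDegree_map_AA (hpt : ∀ F, Pt (a F)) (hd : ∀ F i, (a F i).natDegree = d i)
    (i : Fin (M + 2 + 1)) : ((AA a d i).map φ).natDegree = d i ∧ (AA a d i).map φ ≠ 0 := by
  have h1 : ((AA a d i).map φ).coeff (d i) ≠ 0 := by
    rw [coeff_map, AA, coeff_glue, if_pos le_rfl]
    refine mk_ne_zero φ fun F => ?_
    rw [← hd F i]
    exact leadingCoeff_ne_zero.2 ((hpt F).ne i)
  refine ⟨natDegree_eq_of_le_of_coeff_ne_zero ?_ h1, fun h => ?_⟩
  · rw [natDegree_le_iff_coeff_eq_zero]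
    intro j hj
    rw [coeff_map, AA, coeff_glue, if_neg (by omega), map_zero]
  · rw [h, coeff_zero] at h1
    exact h1 rfl

lemma pt_map_AA (hpt : ∀ F, Pt (a F)) (hd : ∀ F i, (a F i).natDegree = d i) :
    Pt (fun i => (AA a d i).map φ) := by
  refine ⟨fun i => (natDegree_map_AA φ hpt hd i).2, ?_, ?_, ?_⟩
  · have h1 : ∑ i, AA a d i = 0 := by
      apply ext_map
      intro F
      rw [Polynomial.map_sum, Polynomial.map_zero]
      simp only [map_AA hd]
      exact (hpt F).sum
    rw [← Polynomial.map_sum, h1, Polynomial.map_zero]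
  · intro c hc
    choose w hw hw' using fun F => exists_bezout_deg (H := Finset.univ.sup d) (hpt F).ne (hpt F).cop
      (fun i => by rw [hd F i]; exact Finset.le_sup (Finset.mem_univ i))
    have h1 : ∑ i, glue (2 * Finset.univ.sup d) (fun F => w F i) * AA a d i = 1 := by
      apply ext_map
      intro F
      rw [Polynomial.map_sum, Polynomial.map_one, ← hw F]
      refine Finset.sum_congr rfl fun i _ => ?_
      rw [Polynomial.map_mul, map_AA hd, map_glue _ _ (fun F => hw' F i)]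
    have h2 := congrArg (Polynomial.map φ) h1
    rw [Polynomial.map_sum, Polynomial.map_one] at h2
    rw [isUnit_iff_dvd_one, ← h2]
    refine Finset.dvd_sum fun i _ => ?_
    rw [Polynomial.map_mul]
    exact Dvd.dvd.mul_left (hc i) _
  · obtain ⟨i, hi⟩ := (hpt ⟨1, one_ne_zero⟩).nc
    refine ⟨i, ?_⟩
    rw [(natDegree_map_AA φ hpt hd i).1, ← hd]
    exact hi

lemma fr_map_AA (hpt : ∀ F, Pt (a F)) (hd : ∀ F i, (a F i).natDegree = d i)
    (hr : ∀ F, fr (a F) = r) : fr (fun i => (AA a d i).map φ) ≤ r := by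
  classical
  let N := ∑ i, d i
  have hp : ∀ F, ∏ i, a F i ≠ 0 := fun F => Finset.prod_ne_zero_iff.2 fun i _ => (hpt F).ne i
  let Q : ∀ F, (k F)[X] := fun F => radical (∏ i, a F i)
  have hQr : ∀ F, (Q F).natDegree = r := fun F => by
    rw [← hr F]
    unfold fr
    convert rfl
  have hQ0 : ∀ F, Q F ≠ 0 := fun F => radical_ne_zero
  have hdvd : ∀ F, ∏ i, a F i ∣ Q F ^ N := by
    intro F
    have h1 := dvd_radical_pow (hp F) (N := N) (by
      rw [natDegree_prod _ _ fun i _ => (hpt F).ne i]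
      exact (Finset.sum_congr rfl fun i _ => hd F i).le)
    convert h1
  choose s hs using hdvd
  have hsd : ∀ F, (s F).natDegree ≤ N * r := by
    intro F
    have h1 : (Q F ^ N).natDegree = N * r := by rw [natDegree_pow, hQr]
    have h2 : s F ≠ 0 := by
      intro h3
      have h4 := hs F
      rw [h3, mul_zero] at h4
      exact pow_ne_zero N (hQ0 F) h4
    rw [hs F, natDegree_mul (hp F) h2] at h1
    omega
  have hkey : (∏ i, AA a d i) * glue (N * r) s = glue r Q ^ N := by
    apply ext_map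
    intro F
    rw [Polynomial.map_mul, Polynomial.map_prod, Polynomial.map_pow,
      map_glue _ _ hsd, map_glue _ _ (fun F => (hQr F).le), hs F]
    simp only [map_AA hd]
  have h1 := congrArg (Polynomial.map φ) hkey
  rw [Polynomial.map_mul, Polynomial.map_prod, Polynomial.map_pow] at h1
  set q := (glue r Q).map φ with hq
  have hq0 : q ≠ 0 := by
    intro h2
    have h3 : φ ((glue r Q).coeff r) = 0 := by
      rw [← coeff_map, ← hq, h2, coeff_zero]
    rw [coeff_glue, if_pos le_rfl] at h3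
    refine mk_ne_zero φ (fun F => ?_) h3
    have h4 := leadingCoeff_ne_zero.2 (hQ0 F)
    rwa [leadingCoeff, hQr F] at h4
  have hqr : q.natDegree ≤ r := by
    rw [natDegree_le_iff_coeff_eq_zero]
    intro j hj
    rw [hq, coeff_map, coeff_glue, if_neg (by omega), map_zero]
  have h2 : radical (∏ i, (AA a d i).map φ) ∣ q :=
    (radical_dvd_radical (Dvd.intro _ h1) (pow_ne_zero N hq0)).trans
      (radical_pow_dvd.trans radical_dvd_self)
  have h3 := natDegree_le_of_dvd h2 hq0
  unfold fr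
  refine le_trans ?_ (h3.trans hqr)
  apply le_of_eq
  convert rfl

lemma alg_map_AA [∀ F, CharZero (k F)] [CharZero S] (hker : ∀ x ∈ JJ k, φ x = 0)
    (hpt : ∀ F, Pt (a F)) (hd : ∀ F i, (a F i).natDegree = d i)
    (hne : ∀ F : Ix M, MvPolynomial.aeval (rat (a F)) F.1 ≠ 0) :
    AlgebraicIndependent ℚ (rat (fun i => (AA a d i).map φ)) := by
  classical
  rw [algebraicIndependent_iff]
  intro G hG
  by_contra hG0
  let T : (∀ F, k F)[X] := hg G (fun j : Fin (M + 1) => AA a d j.castSucc.castSucc)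
    (AA a d (Fin.last (M + 2)))
  have hev : ∀ F, T.map (Pi.evalRingHom k F) =
      hg G (fun j : Fin (M + 1) => a F j.castSucc.castSucc) (a F (Fin.last (M + 2))) := by
    intro F
    have h1 := map_hg G (fun j : Fin (M + 1) => AA a d j.castSucc.castSucc)
      (AA a d (Fin.last (M + 2))) (Polynomial.mapRingHom (Pi.evalRingHom k F))
    simp only [coe_mapRingHom, map_AA hd] at h1
    exact h1
  have hφ : T.map φ = 0 := by
    have h1 := map_hg G (fun j : Fin (M + 1) => AA a d j.castSucc.castSucc)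
      (AA a d (Fin.last (M + 2))) (Polynomial.mapRingHom φ)
    simp only [coe_mapRingHom] at h1
    change T.map φ = _ at h1
    rw [h1]
    apply IsFractionRing.injective S[X] (RatFunc S)
    rw [map_hg G _ _ (algebraMap S[X] (RatFunc S)), map_zero, hg_eq]
    · have h2 : MvPolynomial.aeval (rat (fun i => (AA a d i).map φ)) G = 0 := hG
      unfold rat at h2
      rw [h2, mul_zero]
    · intro h2
      rw [map_eq_zero_iff _ (IsFractionRing.injective S[X] (RatFunc S))] at h2
      exact (natDegree_map_AA φ hpt hd _).2 h2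
  have hT : ∀ F : Ix M, G ∣ F.1 → T.map (Pi.evalRingHom k F) ≠ 0 := by
    intro F hF h0
    apply hne F
    obtain ⟨G', hG'⟩ := hF
    rw [hG', map_mul]
    rw [hev] at h0
    have h1 := congrArg (algebraMap (k F)[X] (RatFunc (k F))) h0
    have hb : algebraMap (k F)[X] (RatFunc (k F)) (a F (Fin.last (M + 2))) ≠ 0 := by
      intro h2
      rw [map_eq_zero_iff _ (IsFractionRing.injective (k F)[X] (RatFunc (k F)))] at h2
      exact (hpt F).ne _ h2
    rw [map_hg G _ _ (algebraMap (k F)[X] (RatFunc (k F))), map_zero, hg_eq _ _ hb] at h1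
    have h2 := (mul_eq_zero.1 h1).resolve_left (pow_ne_zero _ hb)
    have h3 : MvPolynomial.aeval (rat (a F)) G = 0 := h2
    rw [h3, zero_mul]
  let c : ℕ → ∀ F, k F := fun j F => if j = (T.map (Pi.evalRingHom k F)).natDegree then
    ((T.map (Pi.evalRingHom k F)).leadingCoeff)⁻¹ else 0
  let y : ∀ F, k F := ∑ j ∈ Finset.range (T.natDegree + 1), c j * T.coeff j
  have hy : φ y = 0 := by
    rw [map_sum]
    refine Finset.sum_eq_zero fun j _ => ?_
    rw [map_mul, ← coeff_map, hφ, coeff_zero, mul_zero]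
  have h1y : 1 - y ∈ JJ k := by
    refine ⟨⟨G, hG0⟩, fun F hF => ?_⟩
    have h1 := hT F hF
    rw [Pi.sub_apply, Pi.one_apply, sub_eq_zero]
    simp only [y, Finset.sum_apply, Pi.mul_apply]
    rw [Finset.sum_eq_single (T.map (Pi.evalRingHom k F)).natDegree]
    · simp only [c, if_true]
      have h2 : T.coeff (T.map (Pi.evalRingHom k F)).natDegree F =
          (T.map (Pi.evalRingHom k F)).leadingCoeff := by
        rw [leadingCoeff, coeff_map]
        rfl
      rw [h2, inv_mul_cancel₀ (leadingCoeff_ne_zero.2 h1)]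
    · intro j _ hj
      simp only [c]
      rw [if_neg hj, zero_mul]
    · intro h2
      exfalso
      apply h2
      rw [Finset.mem_range]
      exact Nat.lt_succ_of_le natDegree_map_le
  have h2 := hker _ h1y
  rw [map_sub, map_one, hy, sub_zero] at h2
  exact one_ne_zero h2

end

/-- The transfer theorem. -/
theorem transfer {M : ℕ} {k : Ix M → Type u} [∀ F, Field (k F)] [∀ F, CharZero (k F)]
    {d : Fin (M + 2 + 1) → ℕ} {r : ℕ} {a : ∀ F : Ix M, Fin (M + 2 + 1) → (k F)[X]}
    (hpt : ∀ F, Pt (a F)) (hd : ∀ F i, (a F i).natDegree = d i) (hr : ∀ F, fr (a F) = r)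
    (hne : ∀ F : Ix M, MvPolynomial.aeval (rat (a F)) F.1 ≠ 0) :
    ∃ (κ : Type u) (_ : Field κ) (_ : CharZero κ) (b : Fin (M + 2 + 1) → κ[X]), Pt b ∧
      (∀ i, (b i).natDegree = d i) ∧ fr b ≤ r ∧ AlgebraicIndependent ℚ (rat b) := by
  obtain ⟨𝔪, hmax, hJ⟩ := Ideal.exists_le_maximal (JJ k) JJ_ne_top
  let fld : Field ((∀ F, k F) ⧸ 𝔪) := Ideal.Quotient.field 𝔪
  let φ : (∀ F, k F) →+* ((∀ F, k F) ⧸ 𝔪) := Ideal.Quotient.mk 𝔪
  have hcz : CharZero ((∀ F, k F) ⧸ 𝔪) := charZero_of_mk φ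
  refine ⟨(∀ F, k F) ⧸ 𝔪, fld, hcz, fun i => (AA a d i).map φ, pt_map_AA φ hpt hd,
    fun i => (natDegree_map_AA φ hpt hd i).1, fr_map_AA φ hpt hd hr, ?_⟩
  refine alg_map_AA φ (fun x hx => ?_) hpt hd hne
  exact Ideal.Quotient.eq_zero_iff_mem.2 (hJ hx)

end Pool.Agent.E8helper63.FA
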